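import Pool.Agent.P8H20.FP.Qa
import Pool.Agent.P8H20.FP.Qb
import Pool.Agent.P8H40.FP.Free
import Pool.Agent.P8H44.FP.Char
import Pool.Agent.P8H54.FP.Desc
import Pool.Agent.P8H54.FP.Emb
import Pool.Agent.P8H63.FP.Kum
import Pool.Agent.P8H63.FP.Locn
import Pool.Agent.P8H63.FP.Qsur
import Pool.Agent.P8H88.FP.Adj
import Pool.Agent.P8H88.FP.Qe
import Pool.Agent.P8H88.FP.Step

/-! # Project FP: from local-global principles to free products -/

set_option autoImplicit false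

namespace Pool.Agent.P8H47.FP

theorem c_qe : C_QE :=
  Pool.Agent.P8H88.FP.qe Pool.Agent.P8H63.FP.qsur Pool.Agent.P8H20.FP.qa Pool.Agent.P8H20.FP.qb
    Pool.Agent.P8H88.FP.adj_

theorem c_step : C_STEP := Pool.Agent.P8H88.FP.step Pool.Agent.P8H88.FP.adj_ c_qe

theorem c_char : C_CHAR := Pool.Agent.P8H44.FP.char Pool.Agent.P8H44.FP.ext

theorem c_locn : C_LOCN := Pool.Agent.P8H63.FP.locn Pool.Agent.P8H63.FP.kum

theorem c_desc : C_DESC :=
  Pool.Agent.P8H54.FP.desc Pool.Agent.P8H63.FP.kum Pool.Agent.P8H44.FP.ext c_char c_locn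
    Pool.Agent.P8H63.FP.twist

theorem c_emb : C_EMB := Pool.Agent.P8H54.FP.emb Pool.Agent.P8H63.FP.kum c_step c_desc

theorem c_free : C_FREE := Pool.Agent.P8H40.FP.free Pool.Agent.P8H63.FP.kum c_emb

end Pool.Agent.P8H47.FP
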