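import Mathlib
import Pool.Agent.Results.MP_600e55_nt.SymbolPartitions

/-! # Project FP: a basis of `D/F*²` -/

set_option autoImplicit false

namespace Pool.Agent.P8H47.FP

open Pool.Agent.Results.MP_600e55_nt.SymbolPartitions (powers)

theorem exists_basis {F : Type} [Field F] (hfin : (powers F 2).index ≠ 0) {D : Subgroup Fˣ}
    (hD : powers F 2 ≤ D) :
    ∃ (d : ℕ) (t : Fin d → Fˣ), (∀ j, t j ∈ D) ∧
      (∀ x ∈ D, ∃ J : Finset (Fin d), ∃ w : Fˣ, x = (∏ j ∈ J, t j) * w ^ 2) ∧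
      (∀ J : Finset (Fin d), (∃ w : Fˣ, ∏ j ∈ J, t j = w ^ 2) → J = ∅) ∧
      (powers F 2).relIndex D = 2 ^ d := by
  classical
  let Q := ↥D ⧸ (powers F 2).subgroupOf D
  let iG : AddCommGroup (Additive Q) := inferInstance
  have hz : ∀ x : Additive Q, 2 • x = 0 := fun x => by
    obtain ⟨a, ha⟩ := QuotientGroup.mk_surjective (Additive.toMul x)
    have h1 : 2 • x = Additive.ofMul ((QuotientGroup.mk a : Q) ^ 2) := by
      rw [ha]
      rfl
    rw [h1, ofMul_eq_zero, ← QuotientGroup.mk_pow, QuotientGroup.eq_one_iff]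
    exact ⟨a, rfl⟩
  let _ : Module (ZMod 2) (Additive Q) := AddCommGroup.zmodModule hz
  have hrel : (powers F 2).relIndex D ≠ 0 := by
    intro h0
    apply hfin
    have h5 := Subgroup.relIndex_mul_index hD
    rw [h0, zero_mul] at h5
    exact h5.symm
  have hFin : Finite (Additive Q) := by
    have : Finite Q := Nat.finite_of_card_ne_zero hrel
    exact inferInstanceAs (Finite Q)
  let b := Module.finBasis (ZMod 2) (Additive Q)
  have hq : ∀ j, ∃ a : D, Additive.ofMul (QuotientGroup.mk a : Q) = b j := fun j => by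
    obtain ⟨a, ha⟩ := QuotientGroup.mk_surjective (Additive.toMul (b j))
    exact ⟨a, congrArg Additive.ofMul ha⟩
  choose a ha using hq
  have hsum : ∀ J : Finset (Fin (Module.finrank (ZMod 2) (Additive Q))),
      Additive.ofMul (QuotientGroup.mk (∏ j ∈ J, a j) : Q) = ∑ j ∈ J, b j := by
    intro J
    have h1 : (QuotientGroup.mk (∏ j ∈ J, a j) : Q) = ∏ j ∈ J, (QuotientGroup.mk (a j) : Q) :=
      map_prod (QuotientGroup.mk' ((powers F 2).subgroupOf D)) _ _
    rw [h1, ofMul_prod]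
    exact Finset.sum_congr rfl fun j _ => ha j
  refine ⟨Module.finrank (ZMod 2) (Additive Q), fun j => a j, fun j => (a j).2, ?_, ?_, ?_⟩
  · intro x hx
    obtain ⟨c, hc⟩ : ∃ c, c = b.repr (Additive.ofMul (QuotientGroup.mk (⟨x, hx⟩ : D) : Q)) :=
      ⟨_, rfl⟩
    have h1 := b.sum_repr (Additive.ofMul (QuotientGroup.mk (⟨x, hx⟩ : D) : Q))
    rw [← hc] at h1
    let J := Finset.univ.filter fun j => c j ≠ 0
    have h2 : ∑ j, c j • b j = ∑ j ∈ J, b j := by
      rw [Finset.sum_filter]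
      refine Finset.sum_congr rfl fun j _ => ?_
      split_ifs with h
      · have : c j = 1 := by
          have h01 : ∀ z : ZMod 2, z ≠ 0 → z = 1 := by decide
          exact h01 _ h
        rw [this, one_smul]
      · rw [not_not.1 h, zero_smul]
    rw [h2, ← hsum] at h1
    have h3 : (QuotientGroup.mk (∏ j ∈ J, a j) : Q) = QuotientGroup.mk (⟨x, hx⟩ : D) := h1
    rw [QuotientGroup.eq] at h3
    obtain ⟨w, hw⟩ := h3
    refine ⟨J, w, ?_⟩
    have h4 : w ^ 2 = (∏ j ∈ J, (a j : Fˣ))⁻¹ * x := by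
      have h5 : (w ^ 2 : Fˣ) = (((∏ j ∈ J, a j)⁻¹ * (⟨x, hx⟩ : D) : D) : Fˣ) := hw
      rw [h5]
      push_cast
      rfl
    rw [h4, mul_inv_cancel_left]
  · rintro J ⟨w, hw⟩
    have h1 : Additive.ofMul (QuotientGroup.mk (∏ j ∈ J, a j) : Q) = 0 := by
      rw [ofMul_eq_zero, QuotientGroup.eq_one_iff]
      refine ⟨w, ?_⟩
      change w ^ 2 = ((∏ j ∈ J, a j : D) : Fˣ)
      rw [← hw]
      push_cast
      rfl
    rw [hsum] at h1
    by_contra hJ
    obtain ⟨j, hj⟩ := Finset.nonempty_iff_ne_empty.2 hJ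
    have h2 := linearIndependent_iff'.1 b.linearIndependent J (fun _ => 1) (by
      simpa using h1) j hj
    exact one_ne_zero h2
  · have h1 : Nat.card (Additive Q) = 2 ^ Module.finrank (ZMod 2) (Additive Q) := by
      rw [Module.natCard_eq_pow_finrank (K := ZMod 2), Nat.card_zmod]
    exact h1

end Pool.Agent.P8H47.FP
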