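import Pool.Agent.P8H47.FP.Asm
import Pool.Agent.P8H47.FP.Bas
import Pool.Agent.P8H56.FP.Inf
import Pool.Agent.P8H56.FP.Ztwo
import Pool.Agent.P8H65.FP.Fam
import Pool.Agent.P8H40.FP.Lgf
import Pool.Agent.P8H48.EC3.Root

/-! # Project FP: from the local-global principle to the free product with factors `ℤ₂` -/

set_option autoImplicit false

namespace Pool.Agent.P8H47.FP

open Pool.Agent.Results.MP_600e55_nt.SymbolPartitions (powers)
open Pool.Agent.Y920.EP (IsMaxP)

theorem exists_zeta {F : Type} [Field F] (h2 : (2 : F) ≠ 0) : ∃ ζ : F, IsPrimitiveRoot ζ 2 := by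
  refine ⟨-1, ⟨by norm_num, fun l hl => ?_⟩⟩
  rcases Nat.even_or_odd l with h | h
  · exact h.two_dvd
  · exfalso
    apply h2
    rw [h.neg_one_pow] at hl
    linear_combination -hl

/-- powers of automorphisms of `F(2)` -/
theorem pro_two {F : Type} [Field F] {K : IntermediateField F (AlgebraicClosure F)}
    (hG : IsGalois F K) (hL : ∀ x : K, ∃ L : IntermediateField F K, x ∈ L ∧
      FiniteDimensional F L ∧ IsGalois F L ∧ ∃ k : ℕ, Module.finrank F L = 2 ^ k)
    (σ : K ≃ₐ[F] K) (N : Subgroup (K ≃ₐ[F] K)) (hN : IsOpen (N : Set (K ≃ₐ[F] K))) :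
    ∃ k : ℕ, σ ^ (2 ^ k) ∈ N := by
  have h1 : (N : Set (K ≃ₐ[F] K)) ∈ nhds 1 := hN.mem_nhds (one_mem N)
  rw [krullTopology_mem_nhds_one_iff] at h1
  obtain ⟨E, hE, hEN⟩ := h1
  obtain ⟨α, hα⟩ := Field.exists_primitive_element F E
  obtain ⟨L, hαL, hfd, hgal, k, hk⟩ := hL (α : K)
  have hEL : E ≤ L := by
    have h2 : IntermediateField.adjoin F {(α : K)} = E := by
      have h3 := congrArg (IntermediateField.map E.val) hα
      rw [IntermediateField.adjoin_map, ← AlgHom.fieldRange_eq_map,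
        IntermediateField.fieldRange_val, Set.image_singleton] at h3
      exact h3
    rw [← h2, IntermediateField.adjoin_simple_le_iff]
    exact hαL
  refine ⟨k, hEN ?_⟩
  have hσ : σ ^ (2 ^ k) ∈ L.fixingSubgroup := by
    rw [← IntermediateField.restrictNormalHom_ker L, MonoidHom.mem_ker, map_pow]
    have h2 : Nat.card (L ≃ₐ[F] L) = 2 ^ k := by
      rw [IsGalois.card_aut_eq_finrank, hk]
    rw [← h2]
    exact pow_card_eq_one'
  exact IntermediateField.fixingSubgroup_antitone hEL hσ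

theorem core {F : Type} [Field F] (h2 : (2 : F) ≠ 0) (hfin : (powers F 2).index ≠ 0)
    {K : IntermediateField F (AlgebraicClosure F)} (hK : IsMaxP 2 F K) {ι : Type}
    (H : ι → Subgroup (K ≃ₐ[F] K)) (hcl : ∀ i, IsClosed (H i : Set (K ≃ₐ[F] K)))
    (hLG : LG (Fx (⊤ : Subgroup (K ≃ₐ[F] K))) (fun i => Fx (H i))) (D : Subgroup Fˣ)
    (hD : ∀ x : Fˣ, x ∈ D ↔ ∀ i, ∃ w ∈ Fx (H i), w ^ 2 = algebraMap F K x)
    (hrad : ∀ t ∈ D, ∀ z : Fˣ, ∃ u v : F, (z : F) = u ^ 2 - t * v ^ 2) :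
    ∃ (d : ℕ) (C : Fin d → Subgroup (K ≃ₐ[F] K)), (powers F 2).relIndex D = 2 ^ d ∧
      (∀ j, IsClosed (C j : Set (K ≃ₐ[F] K)) ∧
        Nonempty (↥(C j) ≃ₜ* Multiplicative (PadicInt 2))) ∧ Free (Sum.elim H C) := by
  classical
  obtain ⟨hG, hL, -⟩ := Pool.Agent.Y469.EP.t_MAX' 2 Nat.prime_two F (exists_zeta h2) K hK
  have hsq := Pool.Agent.P8H48.EC3.root 2 Nat.prime_two F (exists_zeta h2) K hK
  have h2K : (2 : K) ≠ 0 := by
    intro h0
    apply h2
    apply (algebraMap F K).injective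
    rw [map_ofNat, map_zero]
    exact h0
  have hle : powers F 2 ≤ D := by
    rintro x ⟨f, rfl⟩
    rw [hD]
    intro i
    refine ⟨algebraMap F K f, hLG.le i ((Pool.Agent.P8H40.FP.mem_top_iff hG _).2 ⟨_, rfl⟩), ?_⟩
    rw [← map_pow]
    rfl
  obtain ⟨d, t, ht, hspan, hind, hcard⟩ := exists_basis hfin hle
  have hmem : ∀ f : F, algebraMap F K f ∈ Fx (⊤ : Subgroup (K ≃ₐ[F] K)) := fun f =>
    (Pool.Agent.P8H40.FP.mem_top_iff hG _).2 ⟨f, rfl⟩
  have hne : ∀ f : Fˣ, algebraMap F K f ≠ 0 := fun f h =>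
    f.ne_zero ((algebraMap F K).injective (by rw [h, map_zero]))
  have hprod : ∀ J : Finset (Fin d), ∏ j ∈ J, algebraMap F K (t j) =
      algebraMap F K ((∏ j ∈ J, t j : Fˣ) : F) := by
    intro J
    rw [Units.coe_prod, map_prod]
  obtain ⟨σ, h1, h3, h4⟩ := Pool.Agent.P8H65.FP.fam F K h2K hsq ι H hLG d
    (fun j => algebraMap F K (t j)) (fun j => ⟨hmem _, hne _, fun i => by
      obtain ⟨w, hw, e⟩ := (hD _).1 (ht j) i
      exact ⟨w, hw, e.symm⟩⟩) (by
      intro x hx hx0 hxi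
      obtain ⟨f, rfl⟩ := (Pool.Agent.P8H40.FP.mem_top_iff hG _).1 hx
      have hf : f ≠ 0 := by
        rintro rfl
        exact hx0 (map_zero _)
      obtain ⟨J, w, e⟩ := hspan (Units.mk0 f hf) ((hD _).2 fun i => by
        obtain ⟨w, hw, e⟩ := hxi i
        exact ⟨w, hw, e.symm⟩)
      refine ⟨J, algebraMap F K w, hmem _, ?_⟩
      rw [hprod, ← map_pow, ← map_mul]
      congr 1
      have := congrArg Units.val e
      rw [Units.val_mk0, Units.val_mul, Units.val_pow_eq_pow_val] at this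
      exact this) (by
      rintro J ⟨w, hw, e⟩
      obtain ⟨f, rfl⟩ := (Pool.Agent.P8H40.FP.mem_top_iff hG _).1 hw
      apply hind
      rw [hprod, ← map_pow] at e
      have e1 := (algebraMap F K).injective e
      have hf : f ≠ 0 := by
        rintro rfl
        rw [zero_pow two_ne_zero] at e1
        exact (∏ j ∈ J, t j).ne_zero e1
      exact ⟨Units.mk0 f hf, Units.ext (by
        rw [Units.val_pow_eq_pow_val, Units.val_mk0]
        exact e1)⟩)
  let C : Fin d → Subgroup (K ≃ₐ[F] K) := fun j => (Subgroup.zpowers (σ j)).topologicalClosure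
  have hclC : ∀ j, IsClosed (C j : Set (K ≃ₐ[F] K)) := fun j =>
    Subgroup.isClosed_topologicalClosure _
  refine ⟨d, C, hcard, fun j => ⟨hclC j, ?_⟩, ?_⟩
  · obtain ⟨s, hs, hs'⟩ := h1 j
    refine Pool.Agent.P8H56.FP.ztwo _ (σ j) (fun N _ hN => pro_two hG hL (σ j) N hN)
      (Pool.Agent.P8H56.FP.inf F K h2K hsq _ s (σ j) (hmem (t j)) (hne _) hs hs' ?_)
    obtain ⟨u, v, e⟩ := hrad (t j) (ht j) (-1)
    refine ⟨algebraMap F K u, hmem _, algebraMap F K v, hmem _, ?_⟩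
    rw [← map_pow, ← map_pow, ← map_mul, ← map_sub, ← e, Units.val_neg, Units.val_one, map_neg,
      map_one]
  · refine c_free F K h2K hsq (ι ⊕ Fin d) (Sum.elim H C) ?_ h3 h4
    rintro (i | j)
    · exact hcl i
    · exact hclC j

end Pool.Agent.P8H47.FP
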