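import Pool.Agent.P8H48.EC3.Uniq
import Pool.Agent.Y210.ET.Tower
import Pool.Agent.Y888.ET.Quad

/-! # Project FP: uniqueness of the extension of a valuation ring to `K = F(p)`, all `p` -/

set_option autoImplicit false
set_option linter.style.haveILetI false

namespace Pool.Agent.P8H47.FP

open Pool.Agent.Y920.EP (Pw IsMaxP)
open Pool.Agent.Y920.ETC (Sqr)

theorem uniqTwo (F : Type) [Field F] (hζ : ∃ ζ : F, IsPrimitiveRoot ζ 2)
    (K : IntermediateField F (AlgebraicClosure F)) (hK : IsMaxP 2 F K) (E : IntermediateField F K)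
    (O : ValuationSubring K) (hO : Pw 2 (O.comap (algebraMap E K))) (σ : K ≃ₐ[E] K) (x : K) :
    σ x ∈ O ↔ x ∈ O := by
  have hp : Nat.Prime 2 := Nat.prime_two
  obtain ⟨hG, hL, -⟩ := Pool.Agent.Y469.EP.t_MAX' 2 hp F hζ K hK
  haveI := hG
  obtain ⟨L, hxL, hfd, hgal, k, hk⟩ := hL x
  obtain ⟨L', hLL, hfd', hgal', j, hj⟩ := Pool.Agent.P8H48.EC3.tower hp E L hfd hgal hk
  haveI := hfd'
  haveI := hgal'
  have hsq : Sqr (O.comap (algebraMap E K)) := by
    obtain ⟨h1, h2, h3⟩ := hO
    refine ⟨by exact_mod_cast h1, by exact_mod_cast h2, fun x hx hx' => ?_⟩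
    obtain ⟨y, hy⟩ := h3 x hx hx'
    exact ⟨y, by rw [← hy, sq]⟩
  let O₂ : ValuationSubring K := O.comap (σ : K →+* K)
  have h1 : (O.comap (algebraMap L' K)).comap (algebraMap E L') = O.comap (algebraMap E K) := by
    ext f
    rw [ValuationSubring.mem_comap, ValuationSubring.mem_comap, ValuationSubring.mem_comap]
    rfl
  have h3 : (O₂.comap (algebraMap L' K)).comap (algebraMap E L') = O.comap (algebraMap E K) := by
    ext f
    rw [ValuationSubring.mem_comap, ValuationSubring.mem_comap, ValuationSubring.mem_comap,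
      ValuationSubring.mem_comap]
    have : (σ : K →+* K) (algebraMap L' K (algebraMap E L' f)) = algebraMap E K f := σ.commutes f
    rw [this]
  have h4 := Pool.Agent.Y210.ET.t_TOWER Pool.Agent.Y888.ET.t_QUAD j E L' hj
    (O.comap (algebraMap E K)) hsq _ _ h1 h3
  have h5 : (⟨x, hLL x hxL⟩ : L') ∈ O.comap (algebraMap L' K) ↔
      (⟨x, hLL x hxL⟩ : L') ∈ O₂.comap (algebraMap L' K) := by rw [h4]
  rw [ValuationSubring.mem_comap, ValuationSubring.mem_comap, ValuationSubring.mem_comap] at h5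
  exact h5.symm

theorem uniqAll (p : ℕ) (hp : p.Prime) (F : Type) [Field F] (hζ : ∃ ζ : F, IsPrimitiveRoot ζ p)
    (K : IntermediateField F (AlgebraicClosure F)) (hK : IsMaxP p F K) (E : IntermediateField F K)
    (O : ValuationSubring K) (hO : Pw p (O.comap (algebraMap E K))) (σ : K ≃ₐ[E] K) (x : K) :
    σ x ∈ O ↔ x ∈ O := by
  by_cases h2 : p = 2
  · subst h2
    exact uniqTwo F hζ K hK E O hO σ x
  · exact Pool.Agent.P8H48.EC3.uniq p hp h2 F hζ K hK E O hO σ x

end Pool.Agent.P8H47.FP
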