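import Pool.Agent.P8H47.EC3.Dec
import Pool.Agent.P8H47.FP.Uni

/-! # Project FP: the decomposition field is immediate, all `p` (from `EC3/Dec.lean`) -/

set_option autoImplicit false

namespace Pool.Agent.P8H47.FP

open Pool.Agent.Y920.EP (Pw IsMaxP)
open Pool.Agent.P8H47.EC3

section

variable {p : ℕ} {F : Type} [Field F]

/-- the decomposition field is immediate, and its `1 + m` consists of `p`-th powers -/
theorem dec_fieldAll (hp : p.Prime) (hζ : ∃ ζ : F, IsPrimitiveRoot ζ p)
    (K : IntermediateField F (AlgebraicClosure F)) (hK : IsMaxP p F K)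
    (O : ValuationSubring K) (hpO : (p : K)⁻¹ ∈ O) (hpK : (p : K) ≠ 0) :
    Imm O (IntermediateField.fixedField (Z (F := F) O)) ∧
    (∀ m ∈ IntermediateField.fixedField (Z (F := F) O), O.valuation m < 1 →
      ∃ β ∈ IntermediateField.fixedField (Z (F := F) O), β ^ p = 1 + m) ∧
    ∀ σ : K ≃ₐ[IntermediateField.fixedField (Z (F := F) O)] K, ∀ x : K, σ x ∈ O ↔ x ∈ O := by
  obtain ⟨ζ, hζ⟩ := hζ
  obtain ⟨hG, -, -⟩ := Pool.Agent.Y469.EP.t_MAX' p hp F ⟨ζ, hζ⟩ K hK
  have hroot := Pool.Agent.P8H48.EC3.root p hp F ⟨ζ, hζ⟩ K hK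
  have hζK : IsPrimitiveRoot (algebraMap F K ζ) p :=
    hζ.map_of_injective (algebraMap F K).injective
  obtain ⟨E, hE⟩ : ∃ E, E = IntermediateField.fixedField (Z (F := F) O) := ⟨_, rfl⟩
  rw [← hE]
  have hmemE : ∀ x, x ∈ E ↔ ∀ σ ∈ Z (F := F) O, σ x = x := by
    intro x
    rw [hE, IntermediateField.mem_fixedField_iff]
  -- roots are in the decomposition field
  have hrootE : ∀ m ∈ E, O.valuation m < 1 → ∀ β : K, β ^ p = 1 + m →
      O.valuation (β - 1) < 1 → β ∈ E := by
    intro m hm hm1 β hβ hβ1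
    rw [hmemE]
    intro σ hσ
    refine root_unique hp.ne_zero hpO hpK ?_ hβ1 ?_
    · have h1 := Z_lt hσ hβ1
      rwa [map_sub, map_one] at h1
    · rw [← map_pow, hβ, map_add, map_one, (hmemE m).1 hm σ hσ]
  obtain ⟨L, hL⟩ := exists_max O E
  have hLE : L ≤ E := hL.prop.1
  have hLI : Imm O L := hL.prop.2
  -- the maximal immediate extension has all roots
  have hrootL : ∀ m ∈ L, O.valuation m < 1 → ∃ β ∈ L, β ^ p = 1 + m := by
    intro m hm hm1
    obtain ⟨β, hβ, hβ1⟩ := exists_root hp.pos hζK hroot hm1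
    refine ⟨β, ?_, hβ⟩
    by_contra hβL
    have h1 := imm_adjoin hp hζ hpO hLI hβL hm hm1 hβ hβ1
    have h2 : (IntermediateField.adjoin L {β}).restrictScalars F ≤ E := by
      have hβE := hrootE m (hLE hm) hm1 β hβ hβ1
      intro x hx
      have h3 : IntermediateField.adjoin L {β} ≤ (IntermediateField.extendScalars hLE) := by
        rw [IntermediateField.adjoin_simple_le_iff]
        exact hβE
      exact h3 hx
    have h3 : L ≤ (IntermediateField.adjoin L {β}).restrictScalars F := by
      intro x hx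
      exact (IntermediateField.adjoin L {β}).algebraMap_mem ⟨x, hx⟩
    have h4 := hL.le_of_ge ⟨h2, h1⟩ h3
    exact hβL (h4 (IntermediateField.mem_adjoin_simple_self L β))
  have hPw : Pw p (O.comap (algebraMap L K)) := by
    refine ⟨?_, ?_, ?_⟩
    · rw [ValuationSubring.mem_comap, map_inv₀, map_natCast]
      exact hpO
    · intro h0
      apply hpK
      have := congrArg (algebraMap L K) h0
      rwa [map_natCast, map_zero] at this
    · intro x _ hx'
      have h1 : O.valuation (x : K) < 1 := by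
        rw [lt_iff]
        right
        rwa [ValuationSubring.mem_comap, map_inv₀] at hx'
      obtain ⟨β, hβ, e⟩ := hrootL (x : K) x.2 h1
      exact ⟨⟨β, hβ⟩, Subtype.ext e⟩
  have huniq := Pool.Agent.P8H47.FP.uniqAll p hp F ⟨ζ, hζ⟩ K hK L O hPw
  have hEL : E ≤ L := by
    have h1 : L.fixingSubgroup ≤ Z (F := F) O := by
      intro σ hσ x
      have h2 : ∀ y : L, σ (y : K) = y := fun y => by
        rw [IntermediateField.mem_fixingSubgroup_iff] at hσ
        exact hσ y y.2
      exact huniq (AlgEquiv.ofRingEquiv (f := σ.toRingEquiv) h2) x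
    have h3 : E ≤ IntermediateField.fixedField L.fixingSubgroup := by
      intro x hx
      rw [IntermediateField.mem_fixedField_iff]
      intro σ hσ
      exact (hmemE x).1 hx σ (h1 hσ)
    rwa [InfiniteGalois.fixedField_fixingSubgroup] at h3
  have e : L = E := le_antisymm hLE hEL
  subst e
  exact ⟨hLI, hrootL, huniq⟩

end

end Pool.Agent.P8H47.FP
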