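import Pool.Agent.P8H47.EC3.Grp
import Pool.Agent.P8H47.FP.Dec2

/-! # Project FP: the decomposition group of a minimal compatible subgroup, all `p` (from `EC3/Grp.lean`) -/

set_option autoImplicit false

namespace Pool.Agent.P8H47.FP

open Pool.Agent.Y920.EP (Pw IsMaxP pwG)
open Pool.Agent.P8H47.EC (Cp MinCp)
open Pool.Agent.P8H47.EC3
open Pool.Agent.Results.MP_600e55_nt.SymbolPartitions

variable {p : ℕ} {F : Type} [Field F]

theorem exists_goodAll [Fact p.Prime] (hζ : ∃ ζ : F, IsPrimitiveRoot ζ p)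
    {T : Subgroup Fˣ} (hT : MinCp p T)
    (K : IntermediateField F (AlgebraicClosure F)) (hK : IsMaxP p F K) :
    ∃ O : ValuationSubring K, Good p K T O ∧ (p : K)⁻¹ ∈ O ∧
      ∃ σ ∈ Z (F := F) O, σ ≠ 1 ∧ ∀ x ∈ O, O.valuation (σ x - x) < 1 := by
  have hp : p.Prime := Fact.out
  have hpF := Pool.Agent.P8H47.EC.p_ne hζ
  obtain ⟨O₀, hO₀⟩ := hT.ex
  obtain ⟨O, hO⟩ := Pool.Agent.Y620.ET.t_EXTV F K O₀
  have hmem : ∀ f : F, algebraMap F K f ∈ O ↔ f ∈ O₀ := by
    intro f
    rw [← hO, ValuationSubring.mem_comap]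
  have hval : ∀ f : F, O₀.valuation f < 1 ↔ O.valuation (algebraMap F K f) < 1 := by
    intro f
    rw [← hO, lt_comap]
  have hpK : (p : K) ≠ 0 := by
    intro h0
    apply hpF
    apply (algebraMap F K).injective
    rw [map_natCast, map_zero]
    exact h0
  have hpO : (p : K)⁻¹ ∈ O := by
    have := (hmem _).2 hO₀.inv_mem
    rwa [map_inv₀, map_natCast] at this
  obtain ⟨hG, -, hsq⟩ := Pool.Agent.Y469.EP.t_MAX' p hp F hζ K hK
  obtain ⟨h1, h2, h3⟩ := dec_fieldAll hp hζ K hK O hpO hpK
  obtain ⟨E, hE⟩ : ∃ E, E = IntermediateField.fixedField (Z (F := F) O) := ⟨_, rfl⟩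
  have hfix : (Z (F := F) O) = E.fixingSubgroup := by
    apply le_antisymm
    · rw [hE]
      exact IntermediateField.le_iff_le _ _ |>.1 le_rfl
    · intro σ hσ x
      rw [← hE] at h3
      have h4 : ∀ y : E, σ (y : K) = y := fun y => by
        rw [IntermediateField.mem_fixingSubgroup_iff] at hσ
        exact hσ y y.2
      exact h3 (AlgEquiv.ofRingEquiv (f := σ.toRingEquiv) h4) x
  have hprin := eq_principal hT hO₀
  have hine : ∃ σ ∈ Z (F := F) O, σ ≠ 1 ∧ ∀ x ∈ O, O.valuation (σ x - x) < 1 := by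
    rw [← hE] at h3 h1
    obtain ⟨c, hc⟩ : ∃ c : Fˣ, c ∉ O₀.unitGroup ⊔ T := by
      by_contra hc
      push Not at hc
      exact hO₀.ne_top (eq_top_iff.2 fun c _ => hc c)
    obtain ⟨y, hy⟩ := hsq (c : F)
    obtain ⟨ζ, hζ⟩ := hζ
    have hζE : IsPrimitiveRoot (algebraMap F E ζ) p :=
      hζ.map_of_injective (algebraMap F E).injective
    obtain ⟨σ, hσ1, hσ⟩ := Pool.Agent.Y419.EP.t_INERT' p hp E K ⟨_, hζE⟩ O h3
      (algebraMap F E c) y (by
        intro h0
        exact c.ne_zero ((algebraMap F E).injective (h0.trans (map_zero _).symm))) (by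
        rw [hy]
        rfl) (by
        intro f hf h4 h5
        obtain ⟨f₀, hf₀, m, -, hm1, e⟩ := h1 (f : K) f.2 (fun h => hf (Subtype.ext h))
        apply hc
        have e1 : algebraMap E K (algebraMap F E (c : F) * f ^ p) =
            algebraMap F K (c * f₀ ^ p) * (1 + m) ^ p := by
          have e2 : algebraMap E K f = algebraMap F K f₀ * (1 + m) := e
          rw [map_mul, map_pow, e2, map_mul, map_pow, mul_pow]
          have e3 : algebraMap E K (algebraMap F E (c : F)) = algebraMap F K c := rfl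
          rw [e3, mul_assoc]
        have hv : O.valuation ((1 + m) ^ p) = 1 := by
          rw [map_pow, val_one_add hm1, one_pow]
        have e4 : ∀ z : K, O.valuation (z * (1 + m) ^ p) = O.valuation z := fun z => by
          rw [map_mul, hv, mul_one]
        have h6 : algebraMap F K (c * f₀ ^ p) ∈ O := by
          rw [← ValuationSubring.valuation_le_one_iff] at h4 ⊢
          rw [e1, e4] at h4
          exact h4
        have h7 : (algebraMap F K (c * f₀ ^ p))⁻¹ ∈ O := by
          rw [← ValuationSubring.valuation_le_one_iff] at h5 ⊢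
          rw [map_inv₀, map_inv₀, e1, e4] at h5
          rw [map_inv₀]
          exact h5
        have h8 : c * (Units.mk0 f₀ hf₀) ^ p ∈ O₀.unitGroup := by
          apply Pool.Agent.R675.TP.mem_unitGroup_of
          · rw [← hmem, Units.val_mul, Units.val_pow_eq_pow_val, Units.val_mk0]
            exact h6
          · rw [← hmem, Units.val_inv_eq_inv_val, Units.val_mul, Units.val_pow_eq_pow_val,
              Units.val_mk0, map_inv₀]
            exact h7
        have h9 : (Units.mk0 f₀ hf₀) ^ p ∈ T := hT.le ⟨_, rfl⟩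
        have h10 := mul_mem (Subgroup.mem_sup_left h8 : _ ∈ O₀.unitGroup ⊔ T)
          (inv_mem (Subgroup.mem_sup_right h9 : _ ∈ O₀.unitGroup ⊔ T))
        rwa [mul_inv_cancel_right] at h10)
    refine ⟨σ.restrictScalars F, ?_, ?_, ?_⟩
    · rw [mem_Z]
      exact h3 σ
    · intro h0
      apply hσ1
      ext x
      have := congrArg (fun τ : ↥K ≃ₐ[F] ↥K => τ x) h0
      exact congrArg Subtype.val this
    · intro x hx
      exact hσ x hx
  refine ⟨O, ⟨?_, ?_, ?_, h1, h2⟩, hpO, hine⟩
  · rw [hfix]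
    exact InfiniteGalois.fixingSubgroup_isClosed E
  · obtain ⟨σ, hσ, hσ1, hσ2⟩ := hine
    refine ⟨O.ValueGroup, inferInstance, O.valuation, ?_, σ, hσ, hσ1, ?_⟩
    · intro τ
      rw [mem_Z]
      refine forall_congr' fun x => ?_
      rw [ValuationSubring.valuation_le_one_iff, ValuationSubring.valuation_le_one_iff]
    · intro x hx
      exact hσ2 x ((ValuationSubring.valuation_le_one_iff _ _).1 hx)
  · rw [← hE] at h1 h2 ⊢
    intro x
    constructor
    · intro hx
      rw [← hprin] at hx
      obtain ⟨u, hu, d, ⟨f, rfl⟩, e⟩ := Subgroup.mem_sup.1 hx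
      rw [ValuationSubring.mem_principalUnitGroup_iff, hval] at hu
      obtain ⟨β, hβ, e1⟩ := h2 (algebraMap F K ((u : F) - 1)) (E.algebraMap_mem _) hu
      refine ⟨β * algebraMap F K f, mul_mem hβ (E.algebraMap_mem _), ?_⟩
      rw [mul_pow, e1, ← e, map_sub, map_one, add_sub_cancel, Units.val_mul, map_mul]
      congr 1
      rw [← map_pow]
      rfl
    · rintro ⟨y, hy, e⟩
      have hy0 : y ≠ 0 := by
        rintro rfl
        rw [zero_pow hp.ne_zero] at e
        exact x.ne_zero ((algebraMap F K).injective (by rw [map_zero]; exact e.symm))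
      obtain ⟨f, hf, m, -, hm1, e1⟩ := h1 y hy hy0
      have h4 : O₀.valuation ((x : F) * (f ^ p)⁻¹ - 1) < 1 := by
        rw [hval]
        have e2 : algebraMap F K ((x : F) * (f ^ p)⁻¹ - 1) = (1 + m) ^ p - 1 := by
          rw [map_sub, map_one, map_mul, map_inv₀, map_pow, ← e, e1, mul_pow]
          have : (algebraMap F K f) ^ p ≠ 0 := pow_ne_zero _ (fun h => hf
            ((algebraMap F K).injective (by rw [map_zero]; exact h)))
          field_simp
        rw [e2]
        exact pow_near (by rw [add_sub_cancel_left]; exact hm1) p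
      have h5 : x * ((Units.mk0 f hf) ^ p)⁻¹ ∈ O₀.principalUnitGroup := by
        rw [ValuationSubring.mem_principalUnitGroup_iff]
        rw [Units.val_mul, Units.val_inv_eq_inv_val, Units.val_pow_eq_pow_val, Units.val_mk0]
        exact h4
      rw [← hprin]
      have h6 := mul_mem (Subgroup.mem_sup_left h5 : _ ∈ O₀.principalUnitGroup ⊔ pwG F p)
        (Subgroup.mem_sup_right (⟨Units.mk0 f hf, rfl⟩ : (Units.mk0 f hf) ^ p ∈ pwG F p))
      rwa [inv_mul_cancel_right] at h6


end Pool.Agent.P8H47.FP
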