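import Pool.Agent.P8H47.FP.Asm2
import Pool.Agent.P8H47.FP.Grp2
import Pool.Agent.P8H47.EC2.Thr
import Pool.Agent.P8H40.FP.Dect

/-! # Project FP: tame decomposition groups -/

set_option autoImplicit false

namespace Pool.Agent.P8H47.FP

open Pool.Agent.Results.MP_600e55_nt.SymbolPartitions (powers)
open Pool.Agent.Y920.EP (IsMaxP pwG)
open Pool.Agent.P8H47.EC (Cp MinCp)
open Pool.Agent.P8H47.EC3

section

variable {F : Type} [Field F] {K : IntermediateField F (AlgebraicClosure F)}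

/-- a decomposition group of a valuation with residue characteristic not two and with nontrivial
inertia -/
def Tame (H : Subgroup (K ≃ₐ[F] K)) : Prop :=
  ∃ (Γ : Type) (_ : LinearOrderedCommGroupWithZero Γ) (w : Valuation K Γ), w 2 = 1 ∧
    (∀ σ : K ≃ₐ[F] K, σ ∈ H ↔ ∀ x : K, (w (σ x) ≤ 1 ↔ w x ≤ 1)) ∧
    ∃ σ ∈ H, σ ≠ 1 ∧ ∀ x : K, w x ≤ 1 → w (σ x - x) < 1

theorem tame_of (h2K : (2 : K) ≠ 0) {O : ValuationSubring K} (h2 : (2 : K)⁻¹ ∈ O)
    (h : ∃ σ ∈ Z (F := F) O, σ ≠ 1 ∧ ∀ x ∈ O, O.valuation (σ x - x) < 1) :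
    Tame (Z (F := F) O) := by
  obtain ⟨σ, hσ, hσ1, hσ2⟩ := h
  refine ⟨O.ValueGroup, inferInstance, O.valuation, ?_, ?_, σ, hσ, hσ1, ?_⟩
  · have h3 : O.valuation (2 : K) ≤ 1 := (O.valuation_le_one_iff _).2 (by
      have h4 : (1 : K) + 1 ∈ O := O.add_mem _ _ O.one_mem O.one_mem
      rwa [one_add_one_eq_two] at h4)
    have h4 : O.valuation (2 : K)⁻¹ ≤ 1 := (O.valuation_le_one_iff _).2 h2
    rw [map_inv₀] at h4
    have h5 : O.valuation (2 : K) ≠ 0 := (Valuation.ne_zero_iff _).2 h2K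
    exact le_antisymm h3 ((inv_le_one₀ (zero_lt_iff.2 h5)).1 h4)
  · intro τ
    rw [mem_Z]
    refine forall_congr' fun x => ?_
    rw [ValuationSubring.valuation_le_one_iff, ValuationSubring.valuation_le_one_iff]
  · intro x hx
    exact hσ2 x ((ValuationSubring.valuation_le_one_iff _ _).1 hx)

/-- from valuations to valuation rings -/
theorem exists_ring_of_tame {H : Subgroup (K ≃ₐ[F] K)} (h : Tame H) :
    ∃ O : ValuationSubring K, Z (F := F) O = H ∧ (2 : K)⁻¹ ∈ O ∧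
      ∃ σ ∈ Z (F := F) O, σ ≠ 1 ∧ ∀ x ∈ O, O.valuation (σ x - x) < 1 := by
  obtain ⟨Γ, _, w, hw2, hH, σ, hσ, hσ1, hσ2⟩ := h
  have hmem : ∀ x : K, x ∈ w.valuationSubring ↔ w x ≤ 1 := fun x => Iff.rfl
  have hZ : Z (F := F) w.valuationSubring = H := by
    ext τ
    rw [mem_Z, hH]
    exact forall_congr' fun x => by rw [hmem, hmem]
  refine ⟨w.valuationSubring, hZ, ?_, σ, hZ ▸ hσ, hσ1, fun x hx => ?_⟩
  · rw [hmem, map_inv₀, hw2, inv_one]
  · have h1 := hσ2 x ((hmem x).1 hx)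
    rw [lt_iff]
    by_cases h0 : σ x - x = 0
    · exact Or.inl h0
    · right
      rw [hmem, map_inv₀, not_le]
      exact (one_lt_inv₀ (zero_lt_iff.2 ((Valuation.ne_zero_iff _).2 h0))).2 h1

/-- a tame decomposition group lies over a minimal compatible subgroup -/
theorem exists_minimal (h2 : (2 : F) ≠ 0) (hfin : (powers F 2).index ≠ 0) (hK : IsMaxP 2 F K)
    {H : Subgroup (K ≃ₐ[F] K)} (h : Tame H) :
    ∃ T : Subgroup Fˣ, MinCp 2 T ∧ ∀ x ∈ T, ∃ w ∈ Fx H, w ^ 2 = algebraMap F K x := by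
  obtain ⟨hG, hL, -⟩ := Pool.Agent.Y469.EP.t_MAX' 2 Nat.prime_two F (exists_zeta h2) K hK
  have hsq := Pool.Agent.P8H48.EC3.root 2 Nat.prime_two F (exists_zeta h2) K hK
  have h2K : (2 : K) ≠ 0 := by
    intro h0
    apply h2
    apply (algebraMap F K).injective
    rw [map_ofNat, map_zero]
    exact h0
  obtain ⟨O, rfl, h2O, hine⟩ := exists_ring_of_tame h
  obtain ⟨h1, h3, -⟩ := dec_fieldAll Nat.prime_two (exists_zeta h2) K hK O
    (by exact_mod_cast h2O) (by exact_mod_cast h2K)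
  let T' : Subgroup Fˣ :=
    { carrier := {x | ∃ y ∈ IntermediateField.fixedField (Z (F := F) O), y ^ 2 = algebraMap F K x}
      mul_mem' := by
        rintro x x' ⟨y, hy, e⟩ ⟨y', hy', e'⟩
        exact ⟨y * y', mul_mem hy hy', by rw [mul_pow, e, e', Units.val_mul, map_mul]⟩
      one_mem' := ⟨1, one_mem _, by rw [one_pow, Units.val_one, map_one]⟩
      inv_mem' := by
        rintro x ⟨y, hy, e⟩
        exact ⟨y⁻¹, inv_mem hy, by rw [inv_pow, e, Units.val_inv_eq_inv_val, map_inv₀]⟩ }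
  have h4 := Pool.Agent.P8H40.FP.dect F h2 K hG hL hsq O h2O h1 h3 hine T' (fun x => Iff.rfl)
  have hle : pwG F 2 ≤ T' := by
    rintro x ⟨f, rfl⟩
    exact ⟨algebraMap F K f, (IntermediateField.fixedField (Z (F := F) O)).algebraMap_mem _, by
      rw [← map_pow]; rfl⟩
  obtain ⟨T, hT, hTT⟩ := Pool.Agent.P8H47.EC2.exists_min hfin hle ⟨_, h4⟩
  exact ⟨T, hT, fun x hx => hTT hx⟩

end

end Pool.Agent.P8H47.FP
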