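import Pool.Agent.P8H47.FP.Stm
import Pool.Agent.P8H47.EC2.Ss
import Pool.Agent.P8H47.EC3.Grp

/-! # Project FP, part 4: the local-global principle for `F` and the decomposition fields, `p = 2` (statements) -/

set_option autoImplicit false

namespace Pool.Agent.P8H47.FP

open Pool.Agent.Y920.EP (pwG)
open Pool.Agent.P8H47.EC (MinCp)
open Pool.Agent.P8H47.EC2 (Dat S_AP)
open Pool.Agent.P8H47.EC3 (Good Z)

/-- LTWO (150 lines; `P8H47/EC2/Ss.lean` has `sep`, `one_add_mem`, `UU_left`, ..., `claim5` is similar): approximation of solutions of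
`X + Y = 1` in given classes.

Proof. Write `m` for the maximal ideal of `O i`, `J = J i`. (1) For each `i` we may assume that `X`, `Y` (and their inverses) are not in `J` (if they are in
`O i`), that is, that `X, Y` are units of `O_J`. If `X ∈ J` then `Y ∈ 1 + m ⊆ T i`, so `y ∈ T i`, and by `cls` there is `X' ∈ m \ J` in the class of `x`,
`1 - X' ∈ T i`. If `X⁻¹ ∈ J`: `Y = - X (1 - X⁻¹) ∈ - X T i`; let `z' ∈ m \ J` be in the class of `x⁻¹`, `X' = 1/z'`, `1 - X' = - X' (1 - z') ∈ - x T i`, and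
`- x T i = y T i`. If `Y ∈ J` exchange the roles. (`Y⁻¹ ∈ J` if and only if `X⁻¹ ∈ J`, roughly: then `X = 1 - Y` has `X⁻¹ = - Y⁻¹ (1 - Y⁻¹)⁻¹ ∈ J`.)
(2) `X, Y ∈ UU (O i) (O j)` for all `j ≠ i`: if `X` is a unit of `O i` use `UU_left`; if `X ∈ m \ J` use `sep`; if `X⁻¹ ∈ m \ J` use `sep` for `X⁻¹` (`UU` is a group).
(3) Let `c ∈ m \ J` (from `cls`), `r = Y/X`; let `n_i = c` if `r⁻¹ ∈ O i`, and `n_i = c r` if `r ∈ m`; then `n_i ∈ m \ J` (`J` is prime: `PI`), `n_i ∈ UU`, and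
`n_i / r ∈ m`. (4) By `S_AP` there is `X'` with `X' = X_i (1 + n_i b_i)`, `b_i ∈ O i`, for all `i`. So `X_i⁻¹ X' ∈ 1 + m ⊆ T i`, and
`1 - X' = Y_i - X_i n_i b_i = Y_i (1 - (n_i / r) b_i) ∈ Y_i (1 + m)`; it is not `0`. (If there is no `i` at all: `X' = 1/2` or any element not `0`, `1`.) -/
def S_LTWO : Prop := S_AP → ∀ (F : Type) [Field F] (p : ℕ), p ≠ 0 → (2 : F) ≠ 0 → ∀ (ι : Type) [Fintype ι]
  (T : ι → Subgroup Fˣ) (O : ι → ValuationSubring F) (J : ι → Set F), (∀ i, Dat p (T i) (O i) (J i)) →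
  (∀ i j, i ≠ j → ¬ T i ≤ T j) → ∀ x y : Fˣ,
    (∀ i, ∃ X Y : Fˣ, (X : F) + Y = 1 ∧ x⁻¹ * X ∈ T i ∧ y⁻¹ * Y ∈ T i) →
    ∃ X Y : Fˣ, (X : F) + Y = 1 ∧ ∀ i, x⁻¹ * X ∈ T i ∧ y⁻¹ * Y ∈ T i

/-- LFOUR (120 lines): solutions of `y = u² - x v²` in the decomposition field give solutions of `X + Y = 1` in `F`.

Proof. Write `E` for the fixed field of `Z O`, `w = O.valuation`. If `v = 0` then `y = u²` is in `T` (`Good.ker`); by `Dat.cls` there is `X ∈ m₀`, `X ≠ 0`, in the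
class of `x` modulo `T` (`m₀` the maximal ideal of `O₀`) and `Y = 1 - X ∈ T` by `Dat.one_add`. If `u = 0` then `- y/x ∈ T` (`y = - x v²`); let `z ∈ m₀` be in the
class of `x⁻¹`, `X = 1/z`, `Y = 1 - X = - X (1 - z) ∈ - x T = y T`. Let `u, v ≠ 0`, `X' = x v²/u²`, `Y' = y/u²`, `X' + Y' = 1`, `X', Y' ∈ E`. If `w X' ≤ w Y'`, let
`X' = c (1 + m)` with `c ∈ F`, `w m < 1` (`Good.imm`); `1 - c = Y' + c m = Y' (1 + c m/Y')`, `w (c m/Y') < 1`; `c / x` and `(1 - c)/y` are in `F` and squares in `E`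
(`Good.root`), so in `T` (`Good.ker`). If `w Y' ≤ w X'` exchange the roles (`Y' = c (1 + m)`). -/
def S_LFOUR : Prop := ∀ (F : Type) [Field F], (2 : F) ≠ 0 → ∀ (K : IntermediateField F (AlgebraicClosure F))
  (T : Subgroup Fˣ) (O₀ : ValuationSubring F) (J : Set F), Dat 2 T O₀ J → ∀ O : ValuationSubring K, Good 2 K T O →
    ∀ x y : Fˣ, Nm (Fx (Z (F := F) O)) (algebraMap F K x) (algebraMap F K y) →
      ∃ X Y : Fˣ, (X : F) + Y = 1 ∧ x⁻¹ * X ∈ T ∧ y⁻¹ * Y ∈ T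

/-- LGF (200 lines): the local-global principle for `F` and the decomposition fields.

Proof. `Fx ⊤` is the image of `F` (`InfiniteGalois`, `hG`). `sur`: `y_i = f_i (1 + m)` with `f_i ∈ F` by `Good.imm`, `1 + m` is a square (`Good.root`); by `claim3` (`EC2/Ss.lean`,
with `Pool.Agent.P8H55.EC2.ap`) there is `x ∈ F*` in the class of `f_i` modulo `T i` for all `i`; use `Good.ker`. `loc`: by LFOUR and LTWO there are `X + Y = 1` with
`X = x d`, `Y = y d'`, `d, d' ∈ D = ⨅ T i`. (R) For `t ∈ D` every `z ∈ F*` is of the form `u² - t v²`: by `claim4` (`EC2/Ss.lean`) there are `z', c` with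
`z' ∈ - z D` and `1 + z' = t c²`, so `- z' = 1 - t c²`, and `z = (- z') s` with `s ∈ D`, which is of the form `u² - t v²` by the hypothesis (if there is no `i` then
`D = F*` and this is the hypothesis itself). Now with `N(a) = {u² - a v² ≠ 0}`, a group, and `b ∈ N(a)` if and only if `a ∈ N(b)`:
`y d' = 1 - x d ∈ N(x d)`, so `x d ∈ N(y d')`; `d ∈ N(y d')` as `y d' ∈ N(d)` by (R); so `x ∈ N(y d')`, `y d' ∈ N(x)`, and `d' ∈ N(x)` as `x ∈ N(d')`; so `y ∈ N(x)`. -/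
def S_LGF : Prop := S_AP → S_LTWO → S_LFOUR → ∀ (F : Type) [Field F], (2 : F) ≠ 0 →
  ∀ (K : IntermediateField F (AlgebraicClosure F)), IsGalois F K → ∀ (ι : Type) [Fintype ι] (T : ι → Subgroup Fˣ)
  (O₀ : ι → ValuationSubring F) (J : ι → Set F), (∀ i, Dat 2 (T i) (O₀ i) (J i)) → (∀ i j, i ≠ j → ¬ T i ≤ T j) →
  ∀ O : ι → ValuationSubring K, (∀ i, Good 2 K (T i) (O i)) →
  (∀ s ∈ ⨅ i, T i, ∀ t ∈ ⨅ i, T i, ∃ u v : F, (s : F) = u ^ 2 - t * v ^ 2) →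
    LG (Fx (⊤ : Subgroup (K ≃ₐ[F] K))) (fun i => Fx (Z (F := F) (O i))) ∧
    ∀ t ∈ ⨅ i, T i, ∀ z : Fˣ, ∃ u v : F, (z : F) = u ^ 2 - t * v ^ 2

end Pool.Agent.P8H47.FP
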