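import Pool.Agent.P8H47.FP.Stm
import Pool.Agent.P8H47.EC2.Ss
import Pool.Agent.P8H47.EC3.Grp
import Pool.Agent.P8H47.FP.Stm3

/-! # Project FP, part 6: orderings (statements), `p = 2`

An ordering of `F` is given by a homomorphism `f` to an ordered field `R`. Places are valuation rings and orderings. -/

set_option autoImplicit false

namespace Pool.Agent.P8H47.FP

open Pool.Agent.Y920.EP (pwG IsMaxP)
open Pool.Agent.P8H47.EC (Cp MinCp)
open Pool.Agent.P8H47.EC2 (Dat UU)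
open Pool.Agent.P8H47.EC3 (Good Z)

/-- `P` is the group of the positive elements of an ordering of `F` -/
structure IsOrd {F : Type} [Field F] (P : Subgroup Fˣ) : Prop where
  add : ∀ x ∈ P, ∀ y ∈ P, ∃ z ∈ P, (z : F) = x + y
  neg : -1 ∉ P
  tot : ∀ x : Fˣ, x ∈ P ∨ -x ∈ P

/-- a homomorphism of `F` to an ordered field -/
structure OrdEmb (F : Type) [Field F] where
  R : Type
  [fld : Field R]
  [ord : LinearOrder R]
  [str : IsStrictOrderedRing R]
  f : F →+* R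

attribute [instance] OrdEmb.fld OrdEmb.ord OrdEmb.str

/-- the positive elements -/
def Pos {F : Type} [Field F] (e : OrdEmb F) : Subgroup Fˣ where
  carrier := {x | 0 < e.f x}
  mul_mem' := by
    intro a b ha hb
    change 0 < e.f _
    rw [Units.val_mul, map_mul]
    exact mul_pos ha hb
  one_mem' := by
    change 0 < e.f _
    rw [Units.val_one, map_one]
    exact one_pos
  inv_mem' := by
    intro a ha
    change 0 < e.f _
    rw [Units.val_inv_eq_inv_val, map_inv₀]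
    exact inv_pos.2 ha

/-- the ring of the finite elements of an ordering -/
def Arch {F : Type} [Field F] (e : OrdEmb F) : ValuationSubring F where
  carrier := {x | ∃ n : ℕ, |e.f x| ≤ n}
  mul_mem' := by
    rintro a b ⟨n, hn⟩ ⟨m, hm⟩
    refine ⟨n * m, ?_⟩
    rw [map_mul, abs_mul, Nat.cast_mul]
    exact mul_le_mul hn hm (abs_nonneg _) (Nat.cast_nonneg _)
  one_mem' := ⟨1, by rw [map_one, abs_one, Nat.cast_one]⟩
  add_mem' := by
    rintro a b ⟨n, hn⟩ ⟨m, hm⟩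
    refine ⟨n + m, ?_⟩
    rw [map_add, Nat.cast_add]
    exact (abs_add_le _ _).trans (add_le_add hn hm)
  zero_mem' := ⟨0, by rw [map_zero, abs_zero, Nat.cast_zero]⟩
  neg_mem' := by
    rintro a ⟨n, hn⟩
    exact ⟨n, by rw [map_neg, abs_neg]; exact hn⟩
  mem_or_inv_mem' := by
    intro a
    by_cases h : |e.f a| ≤ 1
    · left
      exact ⟨1, by rw [Nat.cast_one]; exact h⟩
    · right
      refine ⟨1, ?_⟩
      rw [map_inv₀, abs_inv, Nat.cast_one]
      exact inv_le_one_of_one_le₀ (le_of_lt (not_le.1 h))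

/-- a valuation ring or an ordering -/
abbrev Place (F : Type) [Field F] : Type 1 := ValuationSubring F ⊕ OrdEmb F

/-- the valuation ring which belongs to a place -/
def Rg {F : Type} [Field F] : Place F → ValuationSubring F
  | .inl O => O
  | .inr e => Arch e

/-- `x` is small compared with `y` -/
def Sm {F : Type} [Field F] (N : ℕ) : Place F → F → F → Prop
  | .inl O, y, x => ∃ b ∈ O, x = y * b
  | .inr e, y, x => |e.f x| * N ≤ |e.f y|

/-- `c` is near to `a` -/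
def Near {F : Type} [Field F] (N : ℕ) : Place F → F → F → F → Prop
  | .inl O, n, a, c => ∃ b ∈ O, c = a * (1 + n * b)
  | .inr e, _, a, c => |e.f c - e.f a| * N ≤ |e.f a|

/-- `|y| ≤ 1` -/
def Le1 {F : Type} [Field F] : Place F → F → Prop
  | .inl O, y => y ∈ O
  | .inr e, y => |e.f y| ≤ 1

/-- `n` is in the maximal ideal (no condition for orderings) -/
def Mx {F : Type} [Field F] : Place F → F → Prop
  | .inl O, n => n ∈ O ∧ n⁻¹ ∉ O
  | .inr _, _ => True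

/-- two orderings which are different on the residue field of the product of the rings of finite elements -/
def Sep {F : Type} [Field F] (e e' : OrdEmb F) : Prop :=
  ∃ u ∈ UU (Arch e) (Arch e'), 0 < e.f u ∧ e'.f u < 0

/-- a condition on pairs of orderings -/
def PSep {F : Type} [Field F] : Place F → Place F → Prop
  | .inr e, .inr e' => Sep e e'
  | _, _ => True

/-- EO (120 lines; see `exists_w` in `P8H55/EC2/Ap.lean`, applied to `g²`): `w = 1/(1 + g² + g⁴ + ... + g^(2(n-1)))` for a suitable prime `n`. At orderings: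
`0 < w ≤ 1`, `w g² ≤ 1` (`n ≥ 2`), and `1 - w ≤ g²` (for `g² < 1` the denominator is at most `1/(1 - g²)`). -/
def S_EO : Prop := ∀ (F : Type) [Field F] (ι : Type) (q : ι → Place F) (s : Finset ι) (g : Fˣ),
  ∃ w : F, w ≠ 0 ∧ (∀ i ∈ s, ∀ O, q i = .inl O → w ∈ O ∧ ((g : F) ∈ O → ∃ b ∈ O, w - 1 = g * b) ∧
      ((g : F)⁻¹ ∈ O → ∃ b ∈ O, w = (g : F)⁻¹ * b)) ∧
    ∀ i ∈ s, ∀ e, q i = .inr e → 0 < e.f w ∧ e.f w ≤ 1 ∧ e.f w * e.f g ^ 2 ≤ 1 ∧ 1 - e.f w ≤ e.f g ^ 2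

/-- FO (200 lines): an element which is small at one place and large at the other one.

Proof. (1) Two valuation rings: `exists_g` in `P8H55/EC2/Ap.lean`. (2) `O` and `e`: let `1/(y y') = a b`, `a ∈ O`, `b ∈ Arch e`, `|b| ≤ n`; `u = N n a` (or
`(N n + 1) a`) is in `O` and `|u| ≥ N |1/(y y')|`; `g = y u`. (3) `e` and `O`: the inverse of (2). (4) `e` and `e'`, `A = Arch e`, `A' = Arch e'`, `W` the ring of the
products. (4a) If `A ≠ W` there is `ν` with `ν ∈ A`, `ν⁻¹ ∉ A`, `ν ∈ UU A A'`; use (2) for the valuation ring `A`, the ordering `e'` and `y ν, y'`: `g ∈ y ν A`, so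
`|g| ≤ |y| |ν| n` for some `n`, and `|ν| n N ≤ 1` for all `n`. (4b) If `A' ≠ W` the same with exchanged roles, and the inverse. (4c) `A = W = A'`: so `y, y'`
are units of `A` and of `A'`: it is enough to find `g` with `|g| ≤ 1/M` at `e` and `|g| ≥ M` at `e'`, for a given integer `M`. Let `u` be as in `Sep`, `u` a unit of `A`
and `A'`, `u > 0` at `e`, `u < 0` at `e'`. Let `m, L` be integers with `1 ≤ m ≤ L u < m + 1` at `e`, with `L` large (`L = k ⌈1/u⌉ M²`); then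
`g = M (L u - m) / m'`... : the element `h = L u - m` has `0 ≤ h < 1` at `e` and `h ≤ - m` at `e'`, where `m ≥ M²` if `L` is large; `g = h / M` (if `h = 0` at `e` take `h + 1/2`)
has `|g| ≤ 1/M` at `e` and `|g| ≥ m/M - 1 ≥ M - 1` at `e'`. -/
def S_FO : Prop := ∀ (F : Type) [Field F] (q q' : Place F), PSep q q' → ∀ (N : ℕ) (y y' : Fˣ),
  y ∈ UU (Rg q) (Rg q') → y' ∈ UU (Rg q) (Rg q') →
    ∃ g : Fˣ, Sm N q y g ∧ Sm N q' y' ((g⁻¹ : Fˣ) : F)

/-- ELO (150 lines; see `el` in `P8H55/EC2/Ap.lean`): for each `i ∈ s` take `g` from FO for `(q i, y i)` and `(q r, y r)` and a large `N'` (`N' = N |s| + 1`, or so),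
`e_i = 1 - w`, `w` from EO for `insert r s`; let `e` be the product of the `e_i`. At orderings `0 ≤ e_i ≤ 1`, `e_i ≤ g²`, `1 - e_i = w ≤ 1/g²`, and
`1 - Π e_i ≤ Σ (1 - e_i)`; note `|y i| ≤ 1`, so `g² ≤ |g|` if `|g| ≤ 1`. -/
def S_ELO : Prop := S_EO → S_FO → ∀ (F : Type) [Field F] (ι : Type) (q : ι → Place F) (s : Finset ι) (r : ι),
  r ∉ s → (∀ i ∈ s, PSep (q i) (q r)) → ∀ (N : ℕ) (y : ι → Fˣ), (∀ i, i = r ∨ i ∈ s → Le1 (q i) (y i)) →
    (∀ i ∈ s, y i ∈ UU (Rg (q i)) (Rg (q r)) ∧ y r ∈ UU (Rg (q i)) (Rg (q r))) →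
    ∃ e : F, (∀ i ∈ s, Sm N (q i) (y i) e) ∧ Sm N (q r) (y r) (e - 1)

/-- the conclusion of ELO -/
def C_ELO : Prop := ∀ (F : Type) [Field F] (ι : Type) (q : ι → Place F) (s : Finset ι) (r : ι),
  r ∉ s → (∀ i ∈ s, PSep (q i) (q r)) → ∀ (N : ℕ) (y : ι → Fˣ), (∀ i, i = r ∨ i ∈ s → Le1 (q i) (y i)) →
    (∀ i ∈ s, y i ∈ UU (Rg (q i)) (Rg (q r)) ∧ y r ∈ UU (Rg (q i)) (Rg (q r))) →
    ∃ e : F, (∀ i ∈ s, Sm N (q i) (y i) e) ∧ Sm N (q r) (y r) (e - 1)

/-- the conclusion of CLO -/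
def C_CLO : Prop := ∀ (F : Type) [Field F] (ι : Type) (q : ι → Place F) (s : Finset ι) (r : ι),
  r ∉ s → (∀ i ∈ s, PSep (q i) (q r)) → ∀ (N : ℕ) (n : ι → Fˣ) (a : Fˣ), (∀ i, i = r ∨ i ∈ s → Mx (q i) (n i)) →
    (∀ i ∈ s, n i ∈ UU (Rg (q i)) (Rg (q r)) ∧ n r ∈ UU (Rg (q i)) (Rg (q r)) ∧ a ∈ UU (Rg (q i)) (Rg (q r))) →
    ∃ c : Fˣ, (∀ i ∈ s, Near N (q i) (n i) 1 c) ∧ Near N (q r) (n r) a c

/-- CLO (150 lines; see `cl` in `P8H55/EC2/Ap.lean`). Write `y i` for the tolerances in ELO. If `q r` is a valuation ring with `a ∈ O`, or an ordering: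
`c = 1 + (a - 1) e`. At a valuation ring `q i`: `y i = n i` if `a ∈ O_i` and `n i / a` otherwise. At an ordering `q i`: `y i = 1` if `|a| ≤ 1` and `1/a` otherwise, and
`2 N` (`|a - 1| ≤ 2` or `≤ 2 |a|`). At `r`: valuation ring: `y r = n r a`; ordering: `y r = a` if `|a| ≤ 1`, `1` otherwise, and `2 N`. If `q r` is a valuation ring with `a ∉ O`
take the inverse of the solution for `a⁻¹` and `2 N`. `c ≠ 0`: it is near to `a` (`N` may be enlarged to be at least 2). -/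
def S_CLO : Prop := C_ELO → C_CLO

/-- the conclusion of APO -/
def C_APO : Prop := ∀ (F : Type) [Field F] (ι : Type) (q : ι → Place F) (s : Finset ι) (N : ℕ) (n a : ι → Fˣ),
  (∀ i ∈ s, Mx (q i) (n i)) → (∀ i ∈ s, ∀ j ∈ s, i ≠ j → PSep (q i) (q j) ∧ n i ∈ UU (Rg (q i)) (Rg (q j)) ∧
    a i ∈ UU (Rg (q i)) (Rg (q j))) → ∃ c : Fˣ, ∀ i ∈ s, Near N (q i) (n i) (a i) c

/-- APO (100 lines; see `ap` in `P8H55/EC2/Ap.lean`): for each `r ∈ s` take `c_r` from CLO for `s \ {r}`, `a = a r` and a large `N'`; let `c` be the product. -/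
def S_APO : Prop := C_CLO → C_APO

/-- the hypotheses on the valuation rings and orderings -/
structure Sys {F : Type} [Field F] {ι κ : Type} (T : ι → Subgroup Fˣ) (O : ι → ValuationSubring F) (J : ι → Set F)
    (e : κ → OrdEmb F) : Prop where
  dat : ∀ i, Dat 2 (T i) (O i) (J i)
  ne : ∀ i j, i ≠ j → ¬ T i ≤ T j
  neO : ∀ i j, ¬ T i ≤ Pos (e j)
  sep : ∀ j k, j ≠ k → Sep (e j) (e k)
  iso : ∀ j, ∀ g : Fˣ, 0 < (e j).f g → ∀ N : ℕ, ∃ c : Fˣ, |(e j).f ((g * c ^ 2 : Fˣ) : F) - 1| * N ≤ 1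

/-- the conclusion of C3O -/
def C_C3O : Prop := ∀ (F : Type) [Field F] (ι κ : Type) [Fintype ι] [Fintype κ] (T : ι → Subgroup Fˣ)
  (O : ι → ValuationSubring F) (J : ι → Set F) (e : κ → OrdEmb F), Sys T O J e → ∀ (x : ι → Fˣ) (b : κ → ℚ),
    (∀ j, b j ≠ 0) → ∀ N : ℕ, ∃ z : Fˣ,
      (∀ i, (x i)⁻¹ * z ∈ T i ∧ (z : F) ∈ O i ∧ (z : F)⁻¹ ∉ O i ∧ (z : F) ∉ J i) ∧
      ∀ j, |(e j).f z - (b j : (e j).R)| * N ≤ |(b j : (e j).R)|

/-- C3O (120 lines; see `claim3` in `P8H47/EC2/Ss.lean`): index set `ι ⊕ κ`; `a i = n i` in `m_i \ J_i` in the class of `x i` (`Dat.cls`), in `UU` by `sep` (also for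
`T' = Pos (e j)`, `O' = Arch (e j)`); at orderings `a = b j` (`F` has characteristic 0 if there is an ordering), `n = 1`, units of `Arch`. Use APO. -/
def S_C3O : Prop := C_APO → C_C3O

/-- the conclusion of C1O -/
def C_C1O : Prop := ∀ (F : Type) [Field F] (ι κ : Type) [Fintype ι] [Fintype κ] (T : ι → Subgroup Fˣ)
  (O : ι → ValuationSubring F) (J : ι → Set F) (e : κ → OrdEmb F), Sys T O J e → ∀ y : Fˣ,
    (∀ i, (y : F) ∈ O i ∧ (y : F)⁻¹ ∉ O i ∧ (y : F) ∉ J i) → ∀ g : Fˣ, (∀ i, g ∈ T i) → (∀ j, 0 < (e j).f g) →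
    ∀ N : ℕ, ∃ c : Fˣ, (∀ i, ∃ b ∈ O i, ((g * c ^ 2 : Fˣ) : F) = 1 + y * y * b) ∧
      ∀ j, |(e j).f ((g * c ^ 2 : Fˣ) : F) - 1| * N ≤ 1

/-- C1O (200 lines; see `claim1` in `P8H47/EC2/Ss.lean`): by induction on a finite subset `s` of `ι ⊕ κ`, for all `N`. Let `c₀` be a solution for `s` and `c_r` one for `r`
(`Dat.gen`, or `iso`). `(c_r/c₀)² = g c_r² / (g c₀²)` is in `UU` for all `i ∈ s` and `r` since `g c_r²` is a unit of `Rg (q r)` and `g c₀²` one of `Rg (q i)`; so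
`a = c_r/c₀ ∈ UU` (`UU_pow`). CLO for `a`, `n = y²` at valuation rings and `1` at orderings, and a large `N'`, gives `c'`; take `c₀ c'`. -/
def S_C1O : Prop := C_CLO → C_C1O

/-- the conclusion of C4O -/
def C_C4O : Prop := ∀ (F : Type) [Field F] (ι κ : Type) [Fintype ι] [Fintype κ] [Nonempty (ι ⊕ κ)]
  (T : ι → Subgroup Fˣ) (O : ι → ValuationSubring F) (J : ι → Set F) (e : κ → OrdEmb F), Sys T O J e →
    ∀ t : Fˣ, (∀ i, t ∈ T i) → (∀ j, 0 < (e j).f t) → ∀ x : Fˣ,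
      ∃ z c : Fˣ, (∀ i, x⁻¹ * z ∈ T i) ∧ (∀ j, 0 < (e j).f ((x⁻¹ * z : Fˣ) : F)) ∧ (1 : F) + z = t * c ^ 2

/-- C4O (150 lines; see `claim4` in `P8H47/EC2/Ss.lean`). By C3O there is `y ∈ F*` with `y ∈ m_i \ J_i` in the class of `x` modulo `T i` for all `i`, and near to `1` at the
orderings with `x > 0` and near to `-1/2` at those with `x < 0` (within `1/8`). `v = 1 + y` is in all `T i` and positive. Let `g = t v⁻¹` and `c` from C1O: `g c² = 1 + η`,
`t c² = v (1 + η)`, `z = t c² - 1 = y + v η`; at valuation rings `η ∈ y² O_i`, `z ∈ y (1 + m_i)`; at orderings `|η| ≤ 1/100` and `z` has the sign of `y`. `z ≠ 0`. -/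
def S_C4O : Prop := C_C3O → C_C1O → C_C4O

/-- the conclusion of L2O -/
def C_L2O : Prop := ∀ (F : Type) [Field F], (2 : F) ≠ 0 → ∀ (ι κ : Type) [Fintype ι] [Fintype κ]
  (T : ι → Subgroup Fˣ) (O : ι → ValuationSubring F) (J : ι → Set F) (e : κ → OrdEmb F), Sys T O J e → ∀ x y : Fˣ,
    (∀ i, ∃ X Y : Fˣ, (X : F) + Y = 1 ∧ x⁻¹ * X ∈ T i ∧ y⁻¹ * Y ∈ T i) →
    (∀ j, 0 < (e j).f x ∨ 0 < (e j).f y) →
    ∃ X Y : Fˣ, (X : F) + Y = 1 ∧ (∀ i, x⁻¹ * X ∈ T i ∧ y⁻¹ * Y ∈ T i) ∧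
      ∀ j, 0 < (e j).f ((x⁻¹ * X : Fˣ) : F) ∧ 0 < (e j).f ((y⁻¹ * Y : Fˣ) : F)

/-- L2O (150 lines; see LTWO in `Stm3.lean` and its proof `P8H53/FP/Ltwo.lean` or similar): the same, with APO instead of AP, and the targets `1/2` (`x, y > 0`), `2`
(`x > 0`, `y < 0`), `-1` (`x < 0`, `y > 0`) at the orderings, `N = 4`. -/
def S_L2O : Prop := C_APO → C_L2O

/-- the fixed field of the involution `τ` is a euclidean closure of `F` at `P` -/
structure OrdG {F K : Type} [Field F] [Field K] [Algebra F K] (τ : K ≃ₐ[F] K) (P : Subgroup Fˣ) : Prop where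
  inv : τ * τ = 1
  ne : τ ≠ 1
  pos : ∀ x : Fˣ, x ∈ P ↔ ∃ y ∈ Fx (Subgroup.zpowers τ), y ^ 2 = algebraMap F K x
  sq : ∀ y ∈ Fx (Subgroup.zpowers τ), y ≠ 0 →
    (∃ w ∈ Fx (Subgroup.zpowers τ), y = w ^ 2) ∨ ∃ w ∈ Fx (Subgroup.zpowers τ), y = - w ^ 2
  sum : ∀ u ∈ Fx (Subgroup.zpowers τ), ∀ v ∈ Fx (Subgroup.zpowers τ), ∃ w ∈ Fx (Subgroup.zpowers τ), u ^ 2 + v ^ 2 = w ^ 2
  neg : ¬ ∃ w ∈ Fx (Subgroup.zpowers τ), w ^ 2 = -1

/-- ORDZ (120 lines): every involution comes from an ordering.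

Proof. `i² = -1` in `K`, `τ i = - i` (see INF in `Stm2.lean`, (1)). `M = Fx (zpowers τ)` = the fixed elements of `τ`. For `y ∈ M` let `z² = y`; `τ z = ± z`; if `τ z = - z` then
`z i ∈ M`, `- y = (z i)²`. For `u, v ∈ M` let `λ² = u + v i`; `(λ τ(λ))² = u² + v²`, `λ τ(λ) ∈ M`. `w² = -1` gives `w = ± i`, not in `M`. `P` = the elements of `F*` which
are squares in `M`. -/
def S_ORDZ : Prop := ∀ (F K : Type) [Field F] [Field K] [Algebra F K], (2 : K) ≠ 0 → (∀ c : K, ∃ y, y ^ 2 = c) →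
  ∀ τ : K ≃ₐ[F] K, τ * τ = 1 → τ ≠ 1 → ∃ P : Subgroup Fˣ, IsOrd P ∧ OrdG τ P

/-- ORDI (200 lines): every ordering comes from an involution (`K = F(2)`).

Proof. For an intermediate field `L` of `K/F` let `S L` be the set of the sums `Σ p_k y_k²` with `p_k ∈ P`, `y_k ∈ L*` (nonempty sums). By Zorn there is a maximal `L` with
`-1 ∉ S L` (`L = F` satisfies this). Then `S L` is closed under sums, products and quotients (`1/a = a (1/a)²`). If `a ∈ L*` is not a square in `L`, `b² = a` in `K`, then `-1 ∈ S (L(b))`,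
`-1 = Σ p_k (x_k + y_k b)²`, so `-1 = A + a B` with `A, B ∈ S L ∪ {0}`, `B ≠ 0`, `- a = (1 + A)/B ∈ S L`. So if `a ∈ S L` then `a` is a square in `L` (otherwise `- a ∈ S L`,
`-1 = (-a)/a ∈ S L`). So `S L` = the nonzero squares and every `a ∈ L*` is a square or the negative of one; `P ⊆ L*²`. `L(i)` is closed under square roots
(`a + b i = (c + d i)²` with `c² = (a + w)/2` or `(a - w)/2`..., `w² = a² + b²`), so `K = L(i)`: otherwise `Gal(K/L(i))` has an open subgroup of index two (the hypothesis `hL`: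
`K` is a union of finite Galois extensions of 2-power degree). `τ` = the nontrivial automorphism of `K/L`, `Fx (zpowers τ) = L`. -/
def S_ORDI : Prop := S_ORDZ → ∀ (F : Type) [Field F], (2 : F) ≠ 0 → ∀ (K : IntermediateField F (AlgebraicClosure F)),
  IsGalois F K → (∀ x : K, ∃ L : IntermediateField F K, x ∈ L ∧ FiniteDimensional F L ∧ IsGalois F L ∧
      ∃ k : ℕ, Module.finrank F L = 2 ^ k) → (∀ c : K, ∃ y, y ^ 2 = c) →
  ∀ P : Subgroup Fˣ, IsOrd P → ∃ τ : K ≃ₐ[F] K, OrdG τ P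

/-- ORDR (60 lines): an ordering as a linear order on (a copy of) `F` -/
def S_ORDR : Prop := ∀ (F : Type) [Field F] (P : Subgroup Fˣ), IsOrd P → ∃ e : OrdEmb F, Pos e = P

/-- ISO (200 lines): orderings which contain no minimal subgroup (`exists_min` in `P8H47/EC2/Thr.lean`: below every `T ⊇ F*²` with a compatible valuation ring there is a minimal one).

Proof. `1 + m ⊆ Pos e` for `A = Arch e`, `m` its maximal ideal. (1) `T' = (1 + m) F*² ≤ Pos e`. If `A* T' ≠ F*` then `A` is compatible with `T'`, and there is a minimal `T ≤ T' ≤ Pos e`,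
contradiction. So `F* = A* F*²`: for `g > 0` there is `c` with `g c² = u ∈ A*`, `u > 0`, so `1/n ≤ u ≤ n`; choose a rational number `q` with `|q² u - 1| ≤ 1/N`. (2) `e` and `e'`
with different `Pos`: suppose that every `u ∈ UU A A'` has the same sign at `e` and `e'`. `W` = the ring of the products `a b`, `a ∈ A`, `b ∈ A'` (a valuation ring with unit group
`UU A A'`); its maximal ideal is in those of `A` and `A'`, so `1 + m_W ⊆ T' = Pos e ⊓ Pos e'`; `W* T' ≠ F*` (there is `x ∈ Pos e`, `- x ∈ Pos e'`; if `x = u t` then `u` has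
different signs). So `W` is compatible with `T'`, contradiction as before. The sign of `u` can be chosen (`- u`). -/
def S_ISO : Prop := ∀ (F : Type) [Field F], (pwG F 2).index ≠ 0 → ∀ e : OrdEmb F, (∀ T : Subgroup Fˣ, MinCp 2 T → ¬ T ≤ Pos e) →
  (∀ g : Fˣ, 0 < e.f g → ∀ N : ℕ, ∃ c : Fˣ, |e.f ((g * c ^ 2 : Fˣ) : F) - 1| * N ≤ 1) ∧
  ∀ e' : OrdEmb F, (∀ T : Subgroup Fˣ, MinCp 2 T → ¬ T ≤ Pos e') → Pos e ≠ Pos e' → Sep e e'

/-- LGO (200 lines): as LGF in `Stm3.lean`, with orderings; see the proof of LGF. At orderings: `sur`: C3O with `b j = ± 1`, `N = 2`; `loc`: if `y = u² - x v²` in `Fx (zpowers τ_j)` then `x` or `y` is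
positive (`OrdG`: otherwise `- y, - x` are squares there, `0 = (-y) + u² + (-x) v²` is a sum of squares, `y ≠ 0`, which gives `-1` as a square). `D = ⨅ T i ⊓ ⨅ Pos (e j)`. For (R) use C4O. -/
def S_LGO : Prop := C_C3O → C_C4O → C_L2O → S_LFOUR → ∀ (F : Type) [Field F], (2 : F) ≠ 0 →
  ∀ (K : IntermediateField F (AlgebraicClosure F)), IsGalois F K → ∀ (ι κ : Type) [Fintype ι] [Fintype κ]
  (T : ι → Subgroup Fˣ) (O₀ : ι → ValuationSubring F) (J : ι → Set F) (e : κ → OrdEmb F), Sys T O₀ J e →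
  ∀ O : ι → ValuationSubring K, (∀ i, Good 2 K (T i) (O i)) → ∀ τ : κ → (K ≃ₐ[F] K), (∀ j, OrdG (τ j) (Pos (e j))) →
  (∀ s t : Fˣ, (∀ i, s ∈ T i ∧ t ∈ T i) → (∀ j, s ∈ Pos (e j) ∧ t ∈ Pos (e j)) → ∃ u v : F, (s : F) = u ^ 2 - t * v ^ 2) →
    LG (Fx (⊤ : Subgroup (K ≃ₐ[F] K)))
      (fun q : ι ⊕ κ => Fx (Sum.elim (fun i => Z (F := F) (O i)) (fun j => Subgroup.zpowers (τ j)) q)) ∧
    ∀ t : Fˣ, (∀ i, t ∈ T i) → (∀ j, t ∈ Pos (e j)) → ∀ z : Fˣ, ∃ u v : F, (z : F) = u ^ 2 - t * v ^ 2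

end Pool.Agent.P8H47.FP
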