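import Pool.Agent.P8H47.FP.Asm3
import Pool.Agent.P8H47.FP.Stm5
import Pool.Agent.P8H47.EC2.Sim
import Pool.Agent.P8H40.FP.LFour
import Pool.Agent.P8H20.FP.Ordr
import Pool.Agent.P8H20.FP.Ordz

/-! # Project FP: the free product decomposition -/

set_option autoImplicit false

namespace Pool.Agent.P8H47.FP

open Pool.Agent.Results.MP_600e55_nt.SymbolPartitions (powers)
open Pool.Agent.Y920.EP (IsMaxP pwG)
open Pool.Agent.P8H47.EC (Cp MinCp)
open Pool.Agent.P8H47.EC2 (Dat)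
open Pool.Agent.P8H47.EC3

theorem finite_above {F : Type} [Field F] (hfin : (powers F 2).index ≠ 0) :
    Finite {T : Subgroup Fˣ // powers F 2 ≤ T} := by
  classical
  have hQ : Finite (Fˣ ⧸ powers F 2) := Nat.finite_of_card_ne_zero hfin
  have : Finite (Set (Fˣ ⧸ powers F 2)) := inferInstance
  refine Finite.of_injective
    (fun T : {T : Subgroup Fˣ // powers F 2 ≤ T} =>
      ((QuotientGroup.mk : Fˣ → Fˣ ⧸ powers F 2) '' (T.1 : Set Fˣ))) ?_
  intro T T' h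
  apply Subtype.ext
  have key : ∀ T T' : {T : Subgroup Fˣ // powers F 2 ≤ T},
      ((QuotientGroup.mk : Fˣ → Fˣ ⧸ powers F 2) '' (T.1 : Set Fˣ)) =
        ((QuotientGroup.mk : Fˣ → Fˣ ⧸ powers F 2) '' (T'.1 : Set Fˣ)) → T.1 ≤ T'.1 := by
    intro T T' h x hx
    have h1 : (QuotientGroup.mk x : Fˣ ⧸ powers F 2) ∈
        ((QuotientGroup.mk : Fˣ → Fˣ ⧸ powers F 2) '' (T'.1 : Set Fˣ)) := h ▸ ⟨x, hx, rfl⟩
    obtain ⟨y, hy, e⟩ := h1
    rw [QuotientGroup.eq] at e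
    have := mul_mem hy (T'.2 e)
    rwa [mul_inv_cancel_left] at this
  exact le_antisymm (key T T' h) (key T' T h.symm)

theorem IsOrd.sq_le {F : Type} [Field F] {P : Subgroup Fˣ} (h : IsOrd P) : powers F 2 ≤ P := by
  rintro x ⟨y, rfl⟩
  change y ^ 2 ∈ P
  rcases h.tot y with hy | hy
  · exact pow_mem hy 2
  · have := pow_mem hy 2
    rwa [neg_sq] at this

/-- the minimal subgroups -/
abbrev MinT (F : Type) [Field F] : Type := {T : Subgroup Fˣ // MinCp 2 T}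

/-- the orderings which contain no minimal subgroup -/
abbrev IsoP (F : Type) [Field F] : Type :=
  {P : Subgroup Fˣ // IsOrd P ∧ ∀ T : Subgroup Fˣ, MinCp 2 T → ¬ T ≤ P}

/-- the meet of all minimal subgroups and all orderings -/
def DD (F : Type) [Field F] : Subgroup Fˣ := sInf {S | MinCp 2 S ∨ IsOrd S}

theorem mem_DD {F : Type} [Field F] {x : Fˣ} :
    x ∈ DD F ↔ (∀ T : MinT F, x ∈ T.1) ∧ ∀ P : IsoP F, x ∈ P.1 := by
  unfold DD
  rw [Subgroup.mem_sInf]
  constructor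
  · intro h
    exact ⟨fun T => h _ (Or.inl T.2), fun P => h _ (Or.inr P.2.1)⟩
  · rintro ⟨h1, h2⟩ S (hS | hS)
    · exact h1 ⟨S, hS⟩
    · by_cases h : ∀ T : Subgroup Fˣ, MinCp 2 T → ¬ T ≤ S
      · exact h2 ⟨S, hS, h⟩
      · push Not at h
        obtain ⟨T, hT, hTS⟩ := h
        exact hTS (h1 ⟨T, hT⟩)

/-- the hypothesis -/
def Splits (F : Type) [Field F] : Prop :=
  ∀ s ∈ DD F, ∀ t ∈ DD F, ∃ u v : F, (s : F) = u ^ 2 - t * v ^ 2

/-- the free product decomposition -/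
theorem main (c3 : C_C3O) (c4 : C_C4O) (l2 : C_L2O) (hLGO : S_LGO) (hISO : S_ISO) (hORDI : S_ORDI)
    {F : Type} [Field F] (h2 : (2 : F) ≠ 0)
    (hfin : (powers F 2).index ≠ 0) {K : IntermediateField F (AlgebraicClosure F)}
    (hK : IsMaxP 2 F K) (hS : Splits F) :
    ∃ (d : ℕ) (O : MinT F → ValuationSubring K) (τ : IsoP F → (K ≃ₐ[F] K))
      (C : Fin d → Subgroup (K ≃ₐ[F] K)), (powers F 2).relIndex (DD F) = 2 ^ d ∧
      (∀ T, Good 2 K T.1 (O T) ∧ Tame (Z (F := F) (O T))) ∧ (∀ P, OrdG (τ P) P.1) ∧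
      (∀ j, IsClosed (C j : Set (K ≃ₐ[F] K)) ∧
        Nonempty (↥(C j) ≃ₜ* Multiplicative (PadicInt 2))) ∧
      Free (Sum.elim (Sum.elim (fun T => Z (F := F) (O T)) (fun P => Subgroup.zpowers (τ P))) C) := by
  classical
  have hp : Fact (Nat.Prime 2) := ⟨Nat.prime_two⟩
  obtain ⟨hG, hL, -⟩ := Pool.Agent.Y469.EP.t_MAX' 2 Nat.prime_two F (exists_zeta h2) K hK
  have hsq := Pool.Agent.P8H48.EC3.root 2 Nat.prime_two F (exists_zeta h2) K hK
  have h2K : (2 : K) ≠ 0 := by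
    intro h0
    apply h2
    apply (algebraMap F K).injective
    rw [map_ofNat, map_zero]
    exact h0
  have hfinA := finite_above hfin
  have hf1 : Finite (MinT F) := Finite.of_injective
    (fun T : MinT F => (⟨T.1, T.2.le⟩ : {T : Subgroup Fˣ // powers F 2 ≤ T}))
    fun T T' h => Subtype.ext (congrArg (fun x => x.1) h)
  have hf2 : Finite (IsoP F) := Finite.of_injective
    (fun P : IsoP F => (⟨P.1, P.2.1.sq_le⟩ : {T : Subgroup Fˣ // powers F 2 ≤ T}))
    fun T T' h => Subtype.ext (congrArg (fun x => x.1) h)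
  have i1 : Fintype (MinT F) := Fintype.ofFinite _
  have i2 : Fintype (IsoP F) := Fintype.ofFinite _
  have h2F : ((2 : ℕ) : F) ≠ 0 := by exact_mod_cast h2
  choose O₀ J hdat using fun T : MinT F => Pool.Agent.P8H47.EC2.dat_of_min h2F hfin T.2
  choose O hgood h2O hine using fun T : MinT F =>
    exists_goodAll (exists_zeta h2) T.2 K hK
  choose e he using fun P : IsoP F => Pool.Agent.P8H20.FP.ordr F P.1 P.2.1
  choose τ hτ using fun P : IsoP F =>
    hORDI Pool.Agent.P8H20.FP.ordz F h2 K hG hL hsq P.1 P.2.1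
  have hsys : Sys (fun T : MinT F => T.1) O₀ J e := by
    refine ⟨hdat, ?_, ?_, ?_, ?_⟩
    · intro T T' hne hle
      exact T'.2.min T.1 T.2.le (lt_of_le_of_ne hle fun h => hne (Subtype.ext h)) T.2.ex
    · intro T P hle
      rw [he] at hle
      exact P.2.2 T.1 T.2 hle
    · intro P P' hne
      refine (hISO F hfin (e P) (by rw [he]; exact P.2.2)).2 (e P') (by rw [he]; exact P'.2.2) ?_
      rw [he, he]
      exact fun h => hne (Subtype.ext h)
    · intro P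
      exact (hISO F hfin (e P) (by rw [he]; exact P.2.2)).1
  have hsplit : ∀ s t : Fˣ, (∀ i : MinT F, s ∈ i.1 ∧ t ∈ i.1) →
      (∀ j : IsoP F, s ∈ Pos (e j) ∧ t ∈ Pos (e j)) → ∃ u v : F, (s : F) = u ^ 2 - t * v ^ 2 := by
    intro s t h3 h4
    exact hS s (mem_DD.2 ⟨fun T => (h3 T).1, fun P => he P ▸ (h4 P).1⟩) t
      (mem_DD.2 ⟨fun T => (h3 T).2, fun P => he P ▸ (h4 P).2⟩)
  obtain ⟨hLG, hrad⟩ := hLGO c3 c4 l2 Pool.Agent.P8H40.FP.lfour F h2 K hG (MinT F) (IsoP F)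
    (fun T => T.1) O₀ J e hsys O hgood τ (fun P => by rw [he]; exact hτ P) hsplit
  have hcl : ∀ q : MinT F ⊕ IsoP F, IsClosed ((Sum.elim (fun T => Z (F := F) (O T))
      (fun P => Subgroup.zpowers (τ P)) q : Subgroup (K ≃ₐ[F] K)) : Set (K ≃ₐ[F] K)) := by
    rintro (T | P)
    · exact (hgood T).closed
    · have h6 : (Subgroup.zpowers (τ P) : Set (K ≃ₐ[F] K)).Finite := by
        have h7 : IsOfFinOrder (τ P) := isOfFinOrder_iff_pow_eq_one.2 ⟨2, two_pos, by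
          rw [sq]; exact (hτ P).inv⟩
        have := h7.finite_zpowers
        exact this
      exact h6.isClosed
  have hDmem : ∀ x : Fˣ, x ∈ DD F ↔ ∀ q : MinT F ⊕ IsoP F,
      ∃ w ∈ Fx (Sum.elim (fun T => Z (F := F) (O T)) (fun P => Subgroup.zpowers (τ P)) q),
        w ^ 2 = algebraMap F K x := by
    intro x
    rw [mem_DD]
    constructor
    · rintro ⟨h6, h7⟩ (T | P)
      · exact ((hgood T).ker x).1 (h6 T)
      · exact ((hτ P).pos x).1 (h7 P)
    · intro h6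
      refine ⟨fun T => ((hgood T).ker x).2 (h6 (Sum.inl T)), fun P => ?_⟩
      exact ((hτ P).pos x).2 (h6 (Sum.inr P))
  have hradD : ∀ t ∈ DD F, ∀ z : Fˣ, ∃ u v : F, (z : F) = u ^ 2 - t * v ^ 2 := by
    intro t ht z
    rw [mem_DD] at ht
    exact hrad t ht.1 (fun P => by rw [he]; exact ht.2 P) z
  obtain ⟨d, C, h3, h4, h5⟩ := core h2 hfin hK
    (Sum.elim (fun T => Z (F := F) (O T)) (fun P => Subgroup.zpowers (τ P))) hcl hLG (DD F)
    hDmem hradD
  exact ⟨d, O, τ, C, h3, fun T => ⟨hgood T, tame_of h2K (by exact_mod_cast h2O T) (hine T)⟩, hτ,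
    h4, h5⟩

end Pool.Agent.P8H47.FP
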