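import Pool.Agent.P8H47.FP.Asm4
import Pool.Agent.P8H57.FP.Conv

/-! # Project FP: the converse, assembly -/

set_option autoImplicit false

namespace Pool.Agent.P8H47.FP

open Pool.Agent.Results.MP_600e55_nt.SymbolPartitions (powers)
open Pool.Agent.Y920.EP (IsMaxP pwG)
open Pool.Agent.P8H47.EC (Cp MinCp)
open Pool.Agent.P8H47.EC3

/-- a subgroup of order two is generated by an involution -/
theorem exists_invol {G : Type} [Group G] {H : Subgroup G} (h : Nat.card H = 2) :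
    ∃ τ : G, τ * τ = 1 ∧ τ ≠ 1 ∧ Subgroup.zpowers τ = H := by
  have hf : Finite H := Nat.finite_of_card_ne_zero (by rw [h]; norm_num)
  have hn : Nontrivial H := by
    rw [← Finite.one_lt_card_iff_nontrivial, h]
    norm_num
  obtain ⟨τ, hτ⟩ := exists_ne (1 : H)
  have h1 : orderOf τ ∣ 2 := h ▸ orderOf_dvd_natCard τ
  have h2 : orderOf τ = 2 := by
    rcases (Nat.dvd_prime Nat.prime_two).1 h1 with h3 | h3
    · exact absurd (orderOf_eq_one_iff.1 h3) hτ
    · exact h3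
  refine ⟨τ, ?_, fun h3 => hτ (Subtype.ext h3), ?_⟩
  · have h3 := pow_orderOf_eq_one τ
    rw [h2, sq] at h3
    exact congrArg Subtype.val h3
  · refine Subgroup.eq_of_le_of_card_ge ((Subgroup.zpowers_le).2 τ.2) ?_
    rw [h, Nat.card_zpowers, Subgroup.orderOf_coe, h2]

theorem conv_main {F : Type} [Field F] (h2 : (2 : F) ≠ 0) (hfin : (powers F 2).index ≠ 0)
    {K : IntermediateField F (AlgebraicClosure F)} (hK : IsMaxP 2 F K) (n : ℕ)
    (H : Fin n → Subgroup (K ≃ₐ[F] K)) (hfree : Free H)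
    (hH : ∀ i, Nonempty (↥(H i) ≃ₜ* Multiplicative (PadicInt 2)) ∨ Tame (H i) ∨
      Nat.card (H i) = 2) : Splits F := by
  obtain ⟨hG, hL, -⟩ := Pool.Agent.Y469.EP.t_MAX' 2 Nat.prime_two F (exists_zeta h2) K hK
  have hsq := Pool.Agent.P8H48.EC3.root 2 Nat.prime_two F (exists_zeta h2) K hK
  have h2K : (2 : K) ≠ 0 := by
    intro h0
    apply h2
    apply (algebraMap F K).injective
    rw [map_ofNat, map_zero]
    exact h0
  have hmem : ∀ f : F, algebraMap F K f ∈ Fx (⊤ : Subgroup (K ≃ₐ[F] K)) := fun f =>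
    (Pool.Agent.P8H40.FP.mem_top_iff hG _).2 ⟨f, rfl⟩
  have hne : ∀ f : Fˣ, algebraMap F K f ≠ 0 := fun f h =>
    f.ne_zero ((algebraMap F K).injective (by rw [h, map_zero]))
  have key : ∀ i, Nonempty (↥(H i) ≃ₜ* Multiplicative (PadicInt 2)) ∨
      ∀ x ∈ DD F, ∃ w ∈ Fx (H i), algebraMap F K x = w ^ 2 := by
    intro i
    rcases hH i with h | h | h
    · exact Or.inl h
    · right
      obtain ⟨T, hT, hx⟩ := exists_minimal h2 hfin hK h
      intro x hxD
      obtain ⟨w, hw, e⟩ := hx x ((mem_DD.1 hxD).1 ⟨T, hT⟩)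
      exact ⟨w, hw, e.symm⟩
    · right
      obtain ⟨τ, hτ, hτ1, hz⟩ := exists_invol h
      obtain ⟨P, hP, hPG⟩ := Pool.Agent.P8H20.FP.ordz F K h2K hsq τ hτ hτ1
      intro x hxD
      obtain ⟨w, hw, e⟩ := (hPG.pos x).1 (Subgroup.mem_sInf.1 hxD P (Or.inr hP))
      exact ⟨w, hz ▸ hw, e.symm⟩
  intro s hs t ht
  have h3 := Pool.Agent.P8H57.FP.conv c_locn F K h2K hsq n H hfree (algebraMap F K s) (hmem s)
    (algebraMap F K t) (hmem t) (hne s) (hne t) (fun k => (key k).imp id fun h => ⟨h s hs, h t ht⟩)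
  obtain ⟨u, hu, v, hv, e⟩ := h3
  obtain ⟨u, rfl⟩ := (Pool.Agent.P8H40.FP.mem_top_iff hG _).1 hu
  obtain ⟨v, rfl⟩ := (Pool.Agent.P8H40.FP.mem_top_iff hG _).1 hv
  refine ⟨u, v, (algebraMap F K).injective ?_⟩
  rw [e, map_sub, map_mul, map_pow, map_pow]

/-- in positive characteristic every decomposition group is tame -/
theorem tame_of_char {F : Type} [Field F] (h2 : (2 : F) ≠ 0) {ℓ : ℕ} (hℓ : ℓ ≠ 0) [CharP F ℓ]
    {K : IntermediateField F (AlgebraicClosure F)} {Γ : Type} [LinearOrderedCommGroupWithZero Γ]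
    (w : Valuation K Γ) : w 2 = 1 := by
  have hle : ∀ m : ℕ, w (m : K) ≤ 1 := by
    intro m
    induction m with
    | zero => rw [Nat.cast_zero, map_zero]; exact zero_le_one
    | succ m ih =>
      rw [Nat.cast_succ]
      exact (w.map_add _ _).trans (max_le ih (by rw [map_one]))
  have hodd : ¬ 2 ∣ ℓ := by
    intro h
    have hp : ℓ.Prime := (CharP.char_is_prime_or_zero F ℓ).resolve_right hℓ
    have h3 := (Nat.prime_dvd_prime_iff_eq Nat.prime_two hp).1 h
    apply h2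
    have := CharP.cast_eq_zero F ℓ
    rw [← h3] at this
    exact_mod_cast this
  obtain ⟨m, hm⟩ : ∃ m, ℓ + 1 = 2 * m := ⟨(ℓ + 1) / 2, by omega⟩
  have h4 : (2 : K) * (m : K) = 1 := by
    have h5 : ((ℓ + 1 : ℕ) : F) = ((2 * m : ℕ) : F) := by rw [hm]
    rw [Nat.cast_add, CharP.cast_eq_zero, zero_add, Nat.cast_one, Nat.cast_mul] at h5
    have h6 := congrArg (algebraMap F K) h5
    rw [map_one, map_mul, map_natCast, map_natCast] at h6
    rw [h6]
    norm_cast
  have h7 := congrArg w h4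
  rw [map_mul, map_one] at h7
  have h8 : w 2 ≤ 1 := by
    have := hle 2
    exact_mod_cast this
  refine le_antisymm h8 ?_
  calc (1 : Γ) = w 2 * w (m : K) := h7.symm
    _ ≤ w 2 * 1 := mul_le_mul_right (hle m) _
    _ = w 2 := mul_one _

end Pool.Agent.P8H47.FP
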