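import Pool.Agent.P8H47.FP.Asm5
import Pool.Agent.P8H20.FP.Eo
import Pool.Agent.P8H20.FP.C3o
import Pool.Agent.P8H63.FP.Fo
import Pool.Agent.P8H63.FP.Ordi
import Pool.Agent.P8H57.FP.Elo
import Pool.Agent.P8H57.FP.Apo
import Pool.Agent.P8H57.FP.L2o
import Pool.Agent.P8H55.FP.C1o
import Pool.Agent.P8H56.FP.Iso
import Pool.Agent.P8H93.FP.Lgo

/-! # Project FP: the free product decomposition, all parts -/

set_option autoImplicit false

namespace Pool.Agent.P8H47.FP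

open Pool.Agent.Results.MP_600e55_nt.SymbolPartitions (powers)
open Pool.Agent.Y920.EP (IsMaxP)
open Pool.Agent.P8H47.EC3

theorem c_elo : C_ELO := Pool.Agent.P8H57.FP.elo Pool.Agent.P8H20.FP.eo Pool.Agent.P8H63.FP.fo

theorem c_clo : C_CLO := Pool.Agent.P8H57.FP.clo c_elo

theorem c_apo : C_APO := Pool.Agent.P8H57.FP.apo c_clo

theorem c_c3o : C_C3O := Pool.Agent.P8H20.FP.c3o c_apo

theorem c_c1o : C_C1O := Pool.Agent.P8H55.FP.c1o c_clo

theorem c_c4o : C_C4O := Pool.Agent.P8H20.FP.c4o c_c3o c_c1o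

theorem c_l2o : C_L2O := Pool.Agent.P8H57.FP.l2o c_apo

/-- the free product decomposition -/
theorem mainF {F : Type} [Field F] (h2 : (2 : F) ≠ 0)
    (hfin : (powers F 2).index ≠ 0) {K : IntermediateField F (AlgebraicClosure F)}
    (hK : IsMaxP 2 F K) (hS : Splits F) :
    ∃ (d : ℕ) (O : MinT F → ValuationSubring K) (τ : IsoP F → (K ≃ₐ[F] K))
      (C : Fin d → Subgroup (K ≃ₐ[F] K)), (powers F 2).relIndex (DD F) = 2 ^ d ∧
      (∀ T, Good 2 K T.1 (O T) ∧ Tame (Z (F := F) (O T))) ∧ (∀ P, OrdG (τ P) P.1) ∧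
      (∀ j, IsClosed (C j : Set (K ≃ₐ[F] K)) ∧
        Nonempty (↥(C j) ≃ₜ* Multiplicative (PadicInt 2))) ∧
      Free (Sum.elim (Sum.elim (fun T => Z (F := F) (O T)) (fun P => Subgroup.zpowers (τ P))) C) :=
  main c_c3o c_c4o c_l2o Pool.Agent.P8H93.FP.lgo Pool.Agent.P8H56.FP.iso Pool.Agent.P8H63.FP.ordi
    h2 hfin hK hS

end Pool.Agent.P8H47.FP
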