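import Pool.Agent.P8H47.FP.Stm6
import Pool.Agent.P8H47.FP.Fin
import Pool.Agent.P8H47.EC2.Thr

/-! # Project FQ, assembly -/

set_option autoImplicit false

namespace Pool.Agent.P8H47.FP

open Pool.Agent.Results.MP_600e55_nt.SymbolPartitions (powers)
open Pool.Agent.Y920.EP (IsMaxP pwG)
open Pool.Agent.P8H47.EC (Cp MinCp)
open Pool.Agent.P8H47.EC2 (Dat)

/-- the system of places -/
theorem exists_sys (hmn : S_MN2) {F : Type} [Field F] (h2 : (2 : F) ≠ 0)
    (hfin : (powers F 2).index ≠ 0) :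
    ∃ (_ : Fintype (MinT F)) (_ : Fintype (IsoP F)) (O : MinT F → ValuationSubring F)
      (J : MinT F → Set F) (e : IsoP F → OrdEmb F),
      Sys (fun T : MinT F => T.1) O J e ∧ (∀ T, (2 : F)⁻¹ ∈ O T) ∧ ∀ P, Pos (e P) = P.1 := by
  classical
  have hfinA := finite_above hfin
  have hf1 : Finite (MinT F) := Finite.of_injective
    (fun T : MinT F => (⟨T.1, T.2.le⟩ : {T : Subgroup Fˣ // powers F 2 ≤ T}))
    fun T T' h => Subtype.ext (congrArg (fun x => x.1) h)
  have hf2 : Finite (IsoP F) := Finite.of_injective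
    (fun P : IsoP F => (⟨P.1, P.2.1.sq_le⟩ : {T : Subgroup Fˣ // powers F 2 ≤ T}))
    fun T T' h => Subtype.ext (congrArg (fun x => x.1) h)
  choose O₀ J hdat h2O using fun T : MinT F => hmn F h2 hfin T.1 T.2
  choose e he using fun P : IsoP F => Pool.Agent.P8H20.FP.ordr F P.1 P.2.1
  refine ⟨Fintype.ofFinite _, Fintype.ofFinite _, O₀, J, e, ⟨hdat, ?_, ?_, ?_, ?_⟩, h2O, he⟩
  · intro T T' hne hle
    exact T'.2.min T.1 T.2.le (lt_of_le_of_ne hle fun h => hne (Subtype.ext h)) T.2.ex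
  · intro T P hle
    rw [he] at hle
    exact P.2.2 T.1 T.2 hle
  · intro P P' hne
    refine (Pool.Agent.P8H56.FP.iso F hfin (e P) (by rw [he]; exact P.2.2)).2 (e P')
      (by rw [he]; exact P'.2.2) ?_
    rw [he, he]
    exact fun h => hne (Subtype.ext h)
  · intro P
    exact (Pool.Agent.P8H56.FP.iso F hfin (e P) (by rw [he]; exact P.2.2)).1

theorem DD_sq {F : Type} [Field F] : powers F 2 ≤ DD F := by
  intro x hx
  rw [mem_DD]
  exact ⟨fun T => T.2.le hx, fun P => P.2.1.sq_le hx⟩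

/-- every element of `F*` is the product of an element of `D` and of a norm from `F(√t)` -/
theorem f_one (hmn : S_MN2) {F : Type} [Field F] (h2 : (2 : F) ≠ 0)
    (hfin : (powers F 2).index ≠ 0) (P : Pairing F) :
    ∀ t ∈ DD F, ∀ x : Fˣ, ∃ d ∈ DD F, P.q x t = P.q d t := by
  intro t ht x
  obtain ⟨i1, i2, O, J, e, hs, -, he⟩ := exists_sys hmn h2 hfin
  by_cases hne : Nonempty (MinT F ⊕ IsoP F)
  · rw [mem_DD] at ht
    obtain ⟨z, c, h3, h4, h5⟩ := c_c4o F (MinT F) (IsoP F) (fun T => T.1) O J e hs t ht.1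
      (fun j => by
        have := ht.2 j
        rw [← he] at this
        exact this) (-x)
    have h6 : x⁻¹ * -z ∈ DD F := by
      rw [mem_DD]
      refine ⟨fun T => ?_, fun Q => ?_⟩
      · have := h3 T
        rwa [inv_neg, neg_mul, ← mul_neg] at this
      · rw [← he]
        have := h4 Q
        rw [inv_neg, neg_mul, ← mul_neg] at this
        exact this
    have h7 : P.q (-z) t = 0 := by
      rw [P.norm]
      refine ⟨(c : F)⁻¹, (c : F)⁻¹, ?_⟩
      have := c.ne_zero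
      rw [Units.val_neg]
      field_simp
      linear_combination -h5
    refine ⟨(x⁻¹ * -z)⁻¹, inv_mem h6, ?_⟩
    have h8 : x = -z * (x⁻¹ * -z)⁻¹ := by
      rw [mul_inv, inv_inv, mul_comm x, mul_inv_cancel_left]
    conv_lhs => rw [h8, P.left, h7, zero_add]
  · refine ⟨x, ?_, rfl⟩
    rw [mem_DD]
    exact ⟨fun T => absurd ⟨Sum.inl T⟩ hne, fun Q => absurd ⟨Sum.inr Q⟩ hne⟩

/-- the local-global principle for norms, up to elements of `D` -/
theorem f_two (hmn : S_MN2) (hlno : C_LNO) {F : Type} [Field F] (h2 : (2 : F) ≠ 0)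
    (hfin : (powers F 2).index ≠ 0) (P : Pairing F) :
    ∀ x y : Fˣ, (∃ X Y : Fˣ, (X : F) + Y = 1 ∧ x⁻¹ * X ∈ DD F ∧ y⁻¹ * Y ∈ DD F) →
      ∃ d ∈ DD F, P.q x (y * d) = 0 := by
  rintro x y ⟨X, Y, hXY, hX, hY⟩
  obtain ⟨i1, i2, O, J, e, hs, h2O, he⟩ := exists_sys hmn h2 hfin
  by_cases hne : Nonempty (MinT F ⊕ IsoP F)
  · rw [mem_DD] at hX hY
    obtain ⟨c, z, h3, h4, h5⟩ := hlno F h2 (MinT F) (IsoP F) (fun T => T.1) O J e hs h2O x y
      (fun T => ⟨X, Y, hXY, hX.1 T, hY.1 T⟩) (fun Q => by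
        have h6 : 0 < (e Q).f (X : F) ∨ 0 < (e Q).f (Y : F) := by
          by_contra h7
          push Not at h7
          have h8 := congrArg (e Q).f hXY
          rw [map_add, map_one] at h8
          have h9 : (1 : (e Q).R) ≤ 0 := by
            rw [← h8]
            exact add_nonpos h7.1 h7.2
          exact absurd h9 (not_le.2 one_pos)
        have key : ∀ a A : Fˣ, a⁻¹ * A ∈ Q.1 → 0 < (e Q).f (A : F) → 0 < (e Q).f (a : F) := by
          intro a A ha hA
          rw [← he] at ha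
          have h7 : A * (a⁻¹ * A)⁻¹ ∈ Pos (e Q) := mul_mem hA (inv_mem ha)
          rw [mul_inv, inv_inv, mul_comm a, mul_inv_cancel_left] at h7
          exact h7
        exact h6.imp (key x X (hX.2 Q)) (key y Y (hY.2 Q)))
    refine ⟨y⁻¹ * z, ?_, ?_⟩
    · rw [mem_DD]
      exact ⟨h4, fun Q => he Q ▸ h5 Q⟩
    · rw [mul_inv_cancel_left, P.norm]
      exact ⟨1, c, by rw [h3, one_pow]⟩
  · refine ⟨y⁻¹, ?_, ?_⟩
    · rw [mem_DD]
      exact ⟨fun T => absurd ⟨Sum.inl T⟩ hne, fun Q => absurd ⟨Sum.inr Q⟩ hne⟩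
    · rw [mul_inv_cancel, P.norm]
      exact ⟨1, 0, by simp⟩

/-- the radical contains the squares -/
theorem rad_sq {F : Type} [Field F] {B : Fˣ → Fˣ → ZMod 2} {M : Subgroup Fˣ} (hB : IsSymb B)
    (hM : IsRad B M) (x : Fˣ) : x * x ∈ M := by
  rw [hM]
  intro y
  rw [hB.left]
  exact CharTwo.add_self_eq_zero _

theorem rad_le {F : Type} [Field F] {B : Fˣ → Fˣ → ZMod 2} {M : Subgroup Fˣ} (hB : IsSymb B)
    (hM : IsRad B M) : powers F 2 ≤ M := by
  rintro _ ⟨x, rfl⟩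
  change x ^ 2 ∈ M
  rw [sq]
  exact rad_sq hB hM x

theorem index_ne {F : Type} [Field F] (hfin : (powers F 2).index ≠ 0) {M : Subgroup Fˣ}
    (h : powers F 2 ≤ M) : M.index ≠ 0 := by
  intro h0
  have := Subgroup.relIndex_mul_index h
  rw [h0, mul_zero] at this
  exact hfin this.symm

theorem not_cp {F : Type} [Field F] (hfin : (powers F 2).index ≠ 0) {M : Subgroup Fˣ}
    (h : powers F 2 ≤ M) (hMD : M ⊔ DD F = ⊤) (hne : M ≠ ⊤) (O : ValuationSubring F) :
    ¬ Cp 2 M O := by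
  intro hO
  have hp : Fact (Nat.Prime 2) := ⟨Nat.prime_two⟩
  obtain ⟨T, hT, hTM⟩ := Pool.Agent.P8H47.EC2.exists_min hfin h ⟨O, hO⟩
  apply hne
  rw [← hMD, eq_comm, sup_eq_left]
  intro x hx
  exact hTM ((mem_DD.1 hx).1 ⟨T, hT⟩)

theorem DD_le_ord {F : Type} [Field F] {P : Subgroup Fˣ} (hP : IsOrd P) : DD F ≤ P :=
  fun _ hx => Subgroup.mem_sInf.1 hx P (Or.inr hP)

/-- an element `x` with `⟨x⟩ M = F*` gives index at most two -/
theorem index_le_two {F : Type} [Field F] {M : Subgroup Fˣ} (hsq : ∀ x : Fˣ, x * x ∈ M) {x : Fˣ}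
    (h : Subgroup.zpowers x ⊔ M = ⊤) : M.index ≤ 2 := by
  have h1 : ∀ y : Fˣ, y ∈ M ∨ x⁻¹ * y ∈ M := by
    intro y
    have hy : y ∈ Subgroup.zpowers x ⊔ M := h ▸ Subgroup.mem_top y
    rw [Subgroup.mem_sup] at hy
    obtain ⟨a, ha, m, hm, rfl⟩ := hy
    obtain ⟨k, rfl⟩ := Subgroup.mem_zpowers_iff.1 ha
    rcases Int.even_or_odd k with ⟨j, rfl⟩ | ⟨j, rfl⟩
    · left
      rw [zpow_add]
      exact mul_mem (hsq _) hm
    · right
      have e : x⁻¹ * (x ^ (2 * j + 1) * m) = x ^ j * x ^ j * m := by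
        rw [zpow_add, zpow_one, two_mul, zpow_add]
        rw [mul_comm (x ^ j * x ^ j) x, mul_assoc x, inv_mul_cancel_left]
      rw [e]
      exact mul_mem (hsq _) hm
  by_contra hc
  push Not at hc
  have hmap : Function.Surjective (fun b : Bool => (QuotientGroup.mk (if b then x else 1) : Fˣ ⧸ M)) := by
    intro q
    obtain ⟨y, rfl⟩ := QuotientGroup.mk_surjective q
    rcases h1 y with h4 | h4
    · exact ⟨false, by
        change (QuotientGroup.mk (1 : Fˣ) : Fˣ ⧸ M) = _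
        rw [QuotientGroup.eq]
        rwa [inv_one, one_mul]⟩
    · exact ⟨true, by
        change (QuotientGroup.mk x : Fˣ ⧸ M) = _
        rw [QuotientGroup.eq]
        exact h4⟩
  have h5 : Nat.card (Fˣ ⧸ M) ≤ Nat.card Bool := Nat.card_le_card_of_surjective _ hmap
  have h6 : Nat.card Bool = 2 := by simp
  rw [h6] at h5
  exact absurd h5 (not_le.2 hc)

/-- a symbol of local type -/
theorem exists_symb (hmn : S_MN2) (hlno : C_LNO) (hsym : S_SYM) (hone : S_RONE) (halt : S_RALT)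
    (hpcdn : S_PCDN) (hnal : S_RNAL) (hcoar : S_COAR) (hpar : S_PAR3) (hnrm : S_NRM)
    (hidx : S_IDX) {F : Type} [Field F] (h2 : (2 : F) ≠ 0)
    (hfin : (powers F 2).index ≠ 0) (P : Pairing F) (hns : ¬ Splits F) :
    ∃ (B : Fˣ → Fˣ → ZMod 2) (M : Subgroup Fˣ), IsSymb B ∧ IsRad B M ∧ M ⊔ DD F = ⊤ ∧
      8 ≤ M.index ∧ ((∃ u v : F, (-1 : F) = u ^ 2 + v ^ 2) → 16 ≤ M.index) := by
  have hne : ∃ s ∈ DD F, ∃ t ∈ DD F, P.q s t ≠ 0 := by
    unfold Splits at hns
    push Not at hns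
    obtain ⟨s, hs, t, ht, h⟩ := hns
    refine ⟨t, ht, s, hs, fun h0 => ?_⟩
    rw [P.norm] at h0
    obtain ⟨u, v, e⟩ := h0
    exact h u v e
  obtain ⟨B, M, hB, hM, hMD, s, t, hst⟩ := hsym F hfin P (DD F) DD_sq
    (f_one hmn h2 hfin P) (f_two hmn hlno h2 hfin P) hne
  have hle := rad_le hB hM
  have hi0 := index_ne hfin hle
  obtain ⟨r, hr⟩ := hidx F M (rad_sq hB hM) hi0
  have hMt : M ≠ ⊤ := by
    intro h
    apply hst
    exact (hM s).1 (h ▸ Subgroup.mem_top s) t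
  have hDM : ¬ DD F ≤ M := by
    intro h
    rw [sup_eq_left.2 h] at hMD
    exact hMt hMD
  have hO : ∀ O : ValuationSubring F, (∀ x : F, x ∈ O → x⁻¹ ∉ O → ∃ t ∈ M, (t : F) = 1 + x) →
      O.unitGroup ⊔ M ≠ ⊤ → ¬ 4 ≤ M.index := by
    intro O h3 h4 h5
    have h6 : (pwG F 2).relIndex M ≠ 0 := by
      intro h0
      have h0' : (powers F 2).relIndex M = 0 := h0
      have := Subgroup.relIndex_mul_index hle
      rw [h0', zero_mul] at this
      exact hfin this.symm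
    rcases hcoar F h2 M hle h6 O h3 h4 with ⟨O', -, h7⟩ | ⟨x, hx⟩
    · exact not_cp hfin hle hMD hMt O' h7
    · have := index_le_two (rad_sq hB hM) hx
      omega
  have h1 : M.index ≠ 1 := fun h => hMt (Subgroup.index_eq_one.1 h)
  have h2' : M.index ≠ 2 := fun h => hDM (DD_le_ord (hone F B M hB hM h))
  have h4 : M.index ≠ 4 := by
    intro h
    by_cases hneg : (-1 : Fˣ) ∈ M
    · obtain ⟨O, h5, h6⟩ := halt F B M hB hM h hneg
      exact hO O h5 h6 h.ge
    · rcases hnal hpcdn F B M hB hM h hneg with ⟨P₁, P₂, h5, h6, h7⟩ | ⟨O, h5, h6⟩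
      · exact hDM ((le_inf (DD_le_ord h5) (DD_le_ord h6)).trans h7)
      · exact hO O h5 h6 h.ge
  have h8 : 8 ≤ M.index := by
    rw [hr] at h1 h2' h4 ⊢
    rcases Nat.lt_or_ge r 3 with h | h
    · interval_cases r <;> simp_all
    · exact le_trans (by norm_num) (Nat.pow_le_pow_right two_pos h)
  refine ⟨B, M, hB, hM, hMD, h8, ?_⟩
  rintro ⟨u, v, huv⟩
  have h9 : B (-1) (-1) = 0 := hnrm F B hB (-1) (-1) ⟨u, v, by
    rw [Units.val_neg, Units.val_one]
    linear_combination huv⟩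
  have h10 := hpar F B M hB hM h9
  rw [hr] at h8 h10 ⊢
  rcases Nat.lt_or_ge r 4 with h | h
  · interval_cases r <;> simp_all
  · exact le_trans (by norm_num) (Nat.pow_le_pow_right two_pos h)

/-- if the quaternion algebras split there are no such symbols -/
theorem no_symb (hnrm : S_NRM) {F : Type} [Field F] (hS : Splits F) {B : Fˣ → Fˣ → ZMod 2}
    {M : Subgroup Fˣ} (hB : IsSymb B) (hM : IsRad B M) (hMD : M ⊔ DD F = ⊤) : M = ⊤ := by
  rw [eq_top_iff]
  intro x _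
  rw [hM]
  intro y
  have hx : x ∈ M ⊔ DD F := hMD ▸ Subgroup.mem_top x
  have hy : y ∈ M ⊔ DD F := hMD ▸ Subgroup.mem_top y
  rw [Subgroup.mem_sup] at hx hy
  obtain ⟨m, hm, d, hd, rfl⟩ := hx
  obtain ⟨m', hm', d', hd', rfl⟩ := hy
  obtain ⟨u, v, e⟩ := hS d' hd' d hd
  have h1 : B d d' = 0 := hnrm F B hB d d' ⟨u, v, e⟩
  rw [hB.left, (hM m).1 hm, zero_add, hB.symm, hB.left, (hM m').1 hm', zero_add, hB.symm, h1]

/-- the index of the radical is at most `[D : F*²]` -/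
theorem index_le {F : Type} [Field F] (hfin : (powers F 2).index ≠ 0) {M : Subgroup Fˣ}
    (hle : powers F 2 ≤ M) (hMD : M ⊔ DD F = ⊤) : M.index ≤ (powers F 2).relIndex (DD F) := by
  have h1 : M.index = M.relIndex (DD F) := by
    rw [← Subgroup.relIndex_top_right, ← hMD, sup_comm, Subgroup.relIndex_sup_right]
  rw [h1]
  refine Subgroup.relIndex_le_of_le_left hle ?_
  intro h0
  have := Subgroup.relIndex_mul_index (DD_sq (F := F))
  rw [h0, zero_mul] at this
  exact hfin this.symm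

end Pool.Agent.P8H47.FP
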