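import Pool.Agent.P8H47.FP.Asm4
import Pool.Agent.P8H55.FP.C1o
import Pool.Agent.Y920.ETC.Stm
import Pool.Agent.Y925.ET.WA
import Pool.Agent.Y447.ET.WB

/-! # Project FQ: when do all quaternion algebras `(s, t)`, `s, t ∈ D`, split? (statements), `p = 2`

Goal: if `(s, t)` does not split for some `s, t ∈ D` there is a Steinberg symbol `B` on `F` with values in `ℤ/2` and radical `M` such that
`M D = F*` and `[F* : M] ≥ 8`, and `≥ 16` if `-1` is a sum of two squares. So Q1 is true if `[D : F*²] ≤ 4`, or `≤ 8`. -/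

set_option autoImplicit false

namespace Pool.Agent.P8H47.FP

open Pool.Agent.Results.MP_600e55_nt.SymbolPartitions (powers)
open Pool.Agent.Y920.EP (pwG IsMaxP)
open Pool.Agent.P8H47.EC (Cp MinCp)
open Pool.Agent.P8H47.EC2 (Dat UU)
open Pool.Agent.P8H55.FP (qq)

/-- Steinberg symbols with values in `ℤ/2` -/
structure IsSymb {F : Type} [Field F] (B : Fˣ → Fˣ → ZMod 2) : Prop where
  left : ∀ a b x : Fˣ, B (a * b) x = B a x + B b x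
  symm : ∀ a b : Fˣ, B a b = B b a
  st : ∀ x y : Fˣ, (x : F) + y = 1 → B x y = 0

/-- `M` is the radical of `B` -/
def IsRad {F : Type} [Field F] (B : Fˣ → Fˣ → ZMod 2) (M : Subgroup Fˣ) : Prop :=
  ∀ x : Fˣ, x ∈ M ↔ ∀ y : Fˣ, B x y = 0

/-- MN2 (20 lines): `dat_of_min` (`EC2/Sim.lean`) with `2⁻¹ ∈ O`. The ring `O` in `EC2.mn` (`EC2/Mn.lean`) is the one with `Cp p T O`; copy its proof. -/
def S_MN2 : Prop := ∀ (F : Type) [Field F], (2 : F) ≠ 0 → (powers F 2).index ≠ 0 → ∀ T : Subgroup Fˣ, MinCp 2 T →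
  ∃ (O : ValuationSubring F) (J : Set F), Dat 2 T O J ∧ (2 : F)⁻¹ ∈ O

/-- SOLV (150 lines): adaptation of the proof of `c1o` (`P8H55/FP/C1o.lean`), where `x = g` and all targets `a q` are `1`. Induction on a finite set `s` of places:
`c₀` a solution for `s`, `c_r` one for `r`: `(c_r/c₀)² = (x c_r²)/(x c₀²)`, and `x c_r²` is `a r` times a unit of `Rg r`, `x c₀²` is `a q` times a unit of `Rg q`, so
`(c_r/c₀)² ∈ UU (Rg q) (Rg r)` for `q ∈ s`. Use CLO as there. -/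
def S_SOLV : Prop := C_CLO → ∀ (F : Type) [Field F] (ι κ : Type) [Fintype ι] [Fintype κ] (T : ι → Subgroup Fˣ)
  (O : ι → ValuationSubring F) (J : ι → Set F) (e : κ → OrdEmb F), Sys T O J e → ∀ w : Fˣ,
    (∀ i, (w : F) ∈ O i ∧ (w : F)⁻¹ ∉ O i ∧ (w : F) ∉ J i) → ∀ (x : Fˣ) (a : ι ⊕ κ → Fˣ),
    (∀ q r, q ≠ r → a q ∈ UU (Rg (qq O e q)) (Rg (qq O e r))) →
    (∀ (q : ι ⊕ κ) (N : ℕ), ∃ c : Fˣ, Near N (qq O e q) ((w * w : Fˣ) : F) (a q : F) ((x * c ^ 2 : Fˣ) : F)) →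
    ∀ N : ℕ, ∃ c : Fˣ, ∀ q : ι ⊕ κ, Near N (qq O e q) ((w * w : Fˣ) : F) (a q : F) ((x * c ^ 2 : Fˣ) : F)

/-- the conclusion of SOLV -/
def C_SOLV : Prop := ∀ (F : Type) [Field F] (ι κ : Type) [Fintype ι] [Fintype κ] (T : ι → Subgroup Fˣ)
  (O : ι → ValuationSubring F) (J : ι → Set F) (e : κ → OrdEmb F), Sys T O J e → ∀ w : Fˣ,
    (∀ i, (w : F) ∈ O i ∧ (w : F)⁻¹ ∉ O i ∧ (w : F) ∉ J i) → ∀ (x : Fˣ) (a : ι ⊕ κ → Fˣ),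
    (∀ q r, q ≠ r → a q ∈ UU (Rg (qq O e q)) (Rg (qq O e r))) →
    (∀ (q : ι ⊕ κ) (N : ℕ), ∃ c : Fˣ, Near N (qq O e q) ((w * w : Fˣ) : F) (a q : F) ((x * c ^ 2 : Fˣ) : F)) →
    ∀ N : ℕ, ∃ c : Fˣ, ∀ q : ι ⊕ κ, Near N (qq O e q) ((w * w : Fˣ) : F) (a q : F) ((x * c ^ 2 : Fˣ) : F)

/-- LOCA (150 lines): one valuation ring. `w ∈ m \ J`, `2 w ∈ y T`, `X + Y = 1`, `X ∈ x T`, `Y ∈ y T`. There is a target `a ∈ x F*²` such that `1 - W ∈ y T` for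
all `W ∈ a (1 + w² O)`. Here `y₀ ∈ m \ J` means `y₀ ∈ O`, `y₀⁻¹ ∉ O`, `y₀ ∉ J`. All squares are in `T` (`Dat.pw`), `1 + m ⊆ T` (`Dat.one_add`), so also `1 + w² b ∈ T`.

(A) `X ∉ O`. By `Dat.cls` there is `z ∈ x⁻¹ T`, `z ∈ m \ J`; `x z ∈ T`, so `x z = (1 + w² b) c²` by `Dat.gen`; let `a = x c⁻²`, so `a⁻¹ = z (1 + w² b)⁻¹ ∈ m \ J`
(`J` is closed under multiplication by units: `Dat.pi`). `W⁻¹ ∈ m`, `1 - W = - W (1 - W⁻¹) ∈ - x T`, and `Y = 1 - X = - X (1 - X⁻¹) ∈ - x T`, so `- x ∈ y T`.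
(B) `X ∈ m`: `z ∈ x T`, `z ∈ m \ J`, `x⁻¹ z = (1 + w² b) c²`, `a = x c² ∈ m \ J`. `1 - W ∈ 1 + m ⊆ T`, and `Y = 1 - X ∈ T`, so `y ∈ T`.
(C) `X` and `Y` units of `O`: `x⁻¹ X = (1 + w² b) c²`, `a = x c² = X (1 + w² b)⁻¹`, a unit. `W - X ∈ m`, so `1 - W = Y + (X - W) ∈ Y (1 + m) ⊆ y T`.
(D) `X` a unit, `Y ∈ m`: `X = 1 - Y ∈ T`, so `x ∈ T`, `x = (1 + w² b) c²`; let `a = x c⁻² (1 + w)⁻² = (1 + w² b) (1 + w)⁻²`, a unit; `W = a (1 + w² b')`,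
`1 - W = 2 w (1 + (w/2) (1 - b - b' - w² b b')) (1 + w)⁻² ∈ 2 w T = y T`. -/
def S_LOCA : Prop := ∀ (F : Type) [Field F], (2 : F) ≠ 0 → ∀ (T : Subgroup Fˣ) (O : ValuationSubring F) (J : Set F),
  Dat 2 T O J → (2 : F)⁻¹ ∈ O → ∀ w x y v : Fˣ, (w : F) ∈ O → (w : F)⁻¹ ∉ O → (w : F) ∉ J → (v : F) = 2 * w → y⁻¹ * v ∈ T →
    (∃ X Y : Fˣ, (X : F) + Y = 1 ∧ x⁻¹ * X ∈ T ∧ y⁻¹ * Y ∈ T) →
    ∃ a c : Fˣ, a = x * c ^ 2 ∧ (((a : F) ∈ O ∧ (a : F)⁻¹ ∈ O) ∨ ((a : F) ∈ O ∧ (a : F)⁻¹ ∉ O ∧ (a : F) ∉ J) ∨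
        ((a : F)⁻¹ ∈ O ∧ (a : F) ∉ O ∧ (a : F)⁻¹ ∉ J)) ∧
      ∀ W : Fˣ, (∃ b ∈ O, (W : F) = a * (1 + w * w * b)) → ∃ z : Fˣ, (z : F) = 1 - W ∧ y⁻¹ * z ∈ T

/-- ORDA (60 lines): one ordering. `x > 0` or `y > 0`. Target `a = -1` (`x < 0`), `1/2` (`x, y > 0`), `2` (`x > 0 > y`);
use the hypothesis for `g = x/a`. -/
def S_ORDA : Prop := ∀ (F : Type) [Field F] (e : OrdEmb F),
  (∀ g : Fˣ, 0 < e.f g → ∀ N : ℕ, ∃ c : Fˣ, |e.f ((g * c ^ 2 : Fˣ) : F) - 1| * N ≤ 1) →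
  ∀ x y : Fˣ, (0 < e.f x ∨ 0 < e.f y) → ∃ a : Fˣ, (a : F) ∈ Arch e ∧ (a : F)⁻¹ ∈ Arch e ∧
    (∀ N : ℕ, ∃ c : Fˣ, |e.f ((x * c ^ 2 : Fˣ) : F) - e.f a| * N ≤ |e.f a|) ∧
    ∀ W : Fˣ, |e.f W - e.f a| * 4 ≤ |e.f a| → ∃ z : Fˣ, (z : F) = 1 - W ∧ 0 < e.f ((y⁻¹ * z : Fˣ) : F)

/-- the conclusion of LNO -/
def C_LNO : Prop := ∀ (F : Type) [Field F], (2 : F) ≠ 0 → ∀ (ι κ : Type) [Fintype ι] [Fintype κ] [Nonempty (ι ⊕ κ)]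
  (T : ι → Subgroup Fˣ) (O : ι → ValuationSubring F) (J : ι → Set F) (e : κ → OrdEmb F), Sys T O J e →
    (∀ i, (2 : F)⁻¹ ∈ O i) → ∀ x y : Fˣ,
    (∀ i, ∃ X Y : Fˣ, (X : F) + Y = 1 ∧ x⁻¹ * X ∈ T i ∧ y⁻¹ * Y ∈ T i) →
    (∀ j, 0 < (e j).f x ∨ 0 < (e j).f y) →
    ∃ c z : Fˣ, (z : F) = 1 - x * (c : F) ^ 2 ∧ (∀ i, y⁻¹ * z ∈ T i) ∧ ∀ j, 0 < (e j).f ((y⁻¹ * z : Fˣ) : F)

/-- LNO (100 lines): C3O (with `x i = y/2`, `b = 1`, `N = 1`) gives `w` with `w ∈ m_i \ J_i`, `2 w ∈ y T i` for all `i`. Take the targets from LOCA and ORDA; they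
are in the groups `UU`: units of `Rg q` (`UU_left` in `EC2/Ss.lean`), or in `m_i \ J_i`, or inverses of such elements (`sep`, see the proof of `c1o`). SOLV with `N = 4` gives `c`,
`W = x c²`. `z ≠ 0` comes from any place (`Nonempty`). -/
def S_LNO : Prop := C_C3O → C_SOLV → S_LOCA → S_ORDA → C_LNO

/-- the pairing `(x, y)` with values in a group of exponent two, `q x y = 0` iff `y` is a norm from `F(√x)` -/
structure Pairing (F : Type) [Field F] where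
  Q : Type
  [grp : AddCommGroup Q]
  two : ∀ a : Q, a + a = 0
  q : Fˣ → Fˣ → Q
  left : ∀ a b x : Fˣ, q (a * b) x = q a x + q b x
  symm : ∀ a b : Fˣ, q a b = q b a
  norm : ∀ x y : Fˣ, q x y = 0 ↔ ∃ u v : F, (y : F) = u ^ 2 - x * v ^ 2

attribute [instance] Pairing.grp

/-- COB (150 lines): norms and coboundaries. For `x ∈ F*` let `χ_x(σ) = σ(a)/a ∈ {1, -1}`, `a² = x` in `K`, here `ℤ/2`-valued: `X x σ = 0` iff `σ a = a`.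
`y = u² - x v²` iff there is `φ` with `φ(στ) = φ(σ) + φ(τ) + X x τ * X y σ`, locally constant.

Proof. (⇐ is LOCN.) Let `y = u² - x v²`, `κ = u + v a ≠ 0`, `λ² = κ`, `b² = y`. For every `σ`: `σ(λ) = ± λ` if `σ a = a` and `± b/λ` if `σ a = - a`; `φ(σ)` is the sign.
If `τ a = a`: `στ λ = ± σ λ`. If `τ a = - a`: `στ λ = ± σ(b)/σ(λ)`. If `v = 0` or `a ∈ F` this is still right. Conversely let `φ` be given. If `a ∈ F` every element is of the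
form `u² - x v²` (`((y+1)/2)² - x ((y-1)/(2a))²`). Otherwise there is `τ` with `τ a = - a`; LOCN for `H = ⊤`, `r = a`, `s = b`, `X = χ_y`, `δ = (-1)^φ` on the stabilizer of `a`:
`δ(h) δ(τ h τ⁻¹) = χ_y(h)`, `δ(τ²) = χ_y(τ)`. -/
def S_COB : Prop := C_LOCN → ∀ (F K : Type) [Field F] [Field K] [Algebra F K] [IsGalois F K], (2 : K) ≠ 0 →
  (∀ c : K, ∃ y, y ^ 2 = c) → ∀ (x y : Fˣ) (a b : K), a ^ 2 = algebraMap F K x → b ^ 2 = algebraMap F K y →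
    ∀ A B : (K ≃ₐ[F] K) → ZMod 2, (∀ σ, σ a = if A σ = 0 then a else - a) → (∀ σ, σ b = if B σ = 0 then b else - b) →
      ((∃ u v : F, (y : F) = u ^ 2 - x * v ^ 2) ↔
        ∃ φ : (K ≃ₐ[F] K) → ZMod 2, IsLocallyConstant φ ∧ ∀ σ τ, φ (σ * τ) = φ σ + φ τ + B σ * A τ)

/-- BR (100 lines): `Q` = functions `G × G → ℤ/2` modulo the coboundaries `∂φ (σ, τ) = φ(στ) - φ(σ) - φ(τ)` of locally constant `φ`; `q x y` = the class of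
`(σ, τ) ↦ X y σ * X x τ`. `X (x x') = X x + X x'`, symmetric: `X x σ X y τ + X y σ X x τ = ∂(X x X y)`. -/
def S_BR : Prop := (∀ (F K : Type) [Field F] [Field K] [Algebra F K] [IsGalois F K], (2 : K) ≠ 0 →
  (∀ c : K, ∃ y, y ^ 2 = c) → ∀ (x y : Fˣ) (a b : K), a ^ 2 = algebraMap F K x → b ^ 2 = algebraMap F K y →
    ∀ A B : (K ≃ₐ[F] K) → ZMod 2, (∀ σ, σ a = if A σ = 0 then a else - a) → (∀ σ, σ b = if B σ = 0 then b else - b) →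
      ((∃ u v : F, (y : F) = u ^ 2 - x * v ^ 2) ↔
        ∃ φ : (K ≃ₐ[F] K) → ZMod 2, IsLocallyConstant φ ∧ ∀ σ τ, φ (σ * τ) = φ σ + φ τ + B σ * A τ)) →
  ∀ (F K : Type) [Field F] [Field K] [Algebra F K] [IsGalois F K], (2 : K) ≠ 0 → (∀ c : K, ∃ y, y ^ 2 = c) →
    Nonempty (Pairing F)

/-- SYM (150 lines): from the pairing to a symbol. Let `s, t ∈ D` with `q s t ≠ 0` and let `λ : Q → ℤ/2` be additive with `λ (q s t) = 1` (`Q` is a `ZMod 2`-vector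
space). `M = {x | λ (q x t') = 0 for all t' ∈ D}`. (1) `M D = F*`: for `x ∈ F*` the functional `t' ↦ λ (q x t')` on `D` vanishes on `D ⊓ M` by `h1`; the form `λ q` on the finite
group `D/(D ⊓ M)` is nondegenerate, so there is `d ∈ D` with `λ (q x t') = λ (q d t')` for all `t' ∈ D`. (2) `B (d m) (d' m') = λ (q d d')` for `d, d' ∈ D`,
`m, m' ∈ M` is well-defined. (3) If `X + Y = 1`, `X = d m`, `Y = d' m'`, then by `h2` for `(m, m')` there is `d'' ∈ D` with `q m (m' d'') = 0`; `q X Y = 0` (`Y = 1 - X`), so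
`q d d' + q d m' + q m d' + q m m' = 0`, and `λ` of the second, third and of `q m m' = q m d''` is zero. -/
def S_SYM : Prop := ∀ (F : Type) [Field F], (powers F 2).index ≠ 0 → ∀ (P : Pairing F) (D : Subgroup Fˣ), powers F 2 ≤ D →
  (∀ t ∈ D, ∀ x : Fˣ, ∃ d ∈ D, P.q x t = P.q d t) →
  (∀ x y : Fˣ, (∃ X Y : Fˣ, (X : F) + Y = 1 ∧ x⁻¹ * X ∈ D ∧ y⁻¹ * Y ∈ D) → ∃ d ∈ D, P.q x (y * d) = 0) →
  (∃ s ∈ D, ∃ t ∈ D, P.q s t ≠ 0) →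
    ∃ (B : Fˣ → Fˣ → ZMod 2) (M : Subgroup Fˣ), IsSymb B ∧ IsRad B M ∧ M ⊔ D = ⊤ ∧ ∃ s t, B s t ≠ 0

/-- RONE (60 lines): radical of index 2. For `a ∉ M` we have `B a a = 1` and `B a (-a) = 0`, so `-1 ∉ M`. If `x, y ∈ M` then `x + y ≠ 0`, and `X = x/(x+y)`, `Y = y/(x+y)`
are both in `(x + y) M`, `B X Y = 0`, so `x + y ∈ M`. (`B a (-a) = 0`: `-a = (1 - a)/(1 - a⁻¹)`.) -/
def S_RONE : Prop := ∀ (F : Type) [Field F] (B : Fˣ → Fˣ → ZMod 2) (M : Subgroup Fˣ), IsSymb B → IsRad B M →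
  M.index = 2 → IsOrd M

/-- RALT (100 lines): radical of index 4 with `-1 ∈ M`. `B x x = B x (-1) = 0`. `B x y = 0` only if `x ∈ M` or `y ∈ M` or `x y ∈ M`. For `x ∉ M`: `1 + x ≠ 0`,
`B (-x) (1 + x) = 0`, so `1 + x ∈ M ∪ x M`: `RigidPair M M`. `t_WA` (`Y925/ET/WA.lean`), `t_WB` (`Y447/ET/WB.lean`): `H' = M ∪ z M`, `O* ≤ H'`, `1 + m ⊆ M`. -/
def S_RALT : Prop := ∀ (F : Type) [Field F] (B : Fˣ → Fˣ → ZMod 2) (M : Subgroup Fˣ), IsSymb B → IsRad B M →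
  M.index = 4 → (-1 : Fˣ) ∈ M → ∃ O : ValuationSubring F, (∀ x : F, x ∈ O → x⁻¹ ∉ O → ∃ t ∈ M, (t : F) = 1 + x) ∧
    O.unitGroup ⊔ M ≠ ⊤

/-- PCDN (200 lines): no exceptions. `M` has index 4, `-1 ∉ M`, `H = M ∪ -M`, for `x ∉ H`: `1 + x ∈ M ∪ x M`. For `m ∈ M` : `1 + m ∈ M ∪ -M`, and there is
`x₀ ∈ M` with `y₀ = -(1 + x₀) ∈ M`. Let `Sm = {x ∉ H | 1 + x ∈ M}`; write `a ≪ u` if `a/u ∈ Sm` (`u ∈ H`, `a ∉ H`, i.e. `u + a ∈ u M`); otherwise `u + a ∈ a M`.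

(Z) If `u, v ∈ M` and `u + v + r = 0`, `r ≠ 0`, then `r ∈ M ∪ -M`. (S1) `a ∈ Sm` implies `-a ∈ Sm`: `0 = (1 + a) + (x₀ - a) + y₀`, so by (Z) `x₀ - a ∈ ±M`, and by rigidity
`x₀ - a ∈ M ∪ -a M`, so `x₀ - a ∈ M`; `0 = 1 + (x₀ - a) + (y₀ + a)`, so `y₀ + a ∈ M` in the same way; also `y₀ - a ∈ M`, `x₀ + a ∈ M` by symmetry; `0 = (1 - a) + (x₀ + a) + y₀`, so
`1 - a ∈ M`. (S3a) `a, x ∈ Sm` implies `a/(1 + x) ∈ Sm`: by (S1) (with `u = 1 + x ∈ M` instead of `1`: `-a/(1+x) ∈ Sm` iff `a/(1+x) ∈ Sm`) we may assume `a ∈ - x M`;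
`(1 + x) + a ∈ M ∪ a M`, `(1 + a) + x ∈ M ∪ x M`, so it is in `M`. (C) `x' = - x/(1 + x) ∈ Sm` and `1 + x' = 1/(1 + x)`, so `a (1 + x) = a/(1 + x') ∈ Sm`. (D) `1 + x = a b` gives
`b⁻¹ = a/(1 + x) ∈ Sm`, but `b ∈ Sm` (`t, t⁻¹ ∈ Sm` would give `t ∈ M`). (P) Let `x, y, z ∈ Sm`, `a = x y ∈ H`, `b = y`, `c = x y z`. If `c ∉ Sm` then `c⁻¹ ∈ Sm`, so
`a ≪ b ≪ 1 ≪ c ≪ a`, and by (S1) this also holds for `-a`, `-b`, `-c`. We may assume `a ∈ M`; `a ≠ 1`. `1 - a = (1 + b) - (a + b)` with `1 + b ∈ M`, `a + b ∈ b M`, so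
`1 - a ∈ M ∪ - b M` by rigidity, and with `-b` instead of `b` : `1 - a ∈ M ∪ b M`; so `1 - a ∈ M`. `1 - a = (1 + c) - (a + c)` with `1 + c ∈ c M`, `a + c ∈ M`, so
`1 - a ∈ c M ∪ -M`, and with `-c`: `1 - a ∈ - c M ∪ -M`; so `1 - a ∈ -M`, contradiction. -/
def S_PCDN : Prop := ∀ (F : Type) [Field F] (M H : Subgroup Fˣ), (∀ x : Fˣ, x * x ∈ M) → M.index = 4 →
  (-1 : Fˣ) ∉ M → (∀ x : Fˣ, x ∈ H ↔ x ∈ M ∨ -x ∈ M) → Pool.Agent.Y920.ETC.RigidPair M H →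
  (∀ x z : Fˣ, x ∈ M → (z : F) = 1 + x → z ∈ H) → (∃ x₀ ∈ M, ∃ y₀ ∈ M, (1 : F) + x₀ + y₀ = 0) →
    Pool.Agent.Y920.ETC.PCD M H

/-- RNAL (120 lines): radical of index 4 with `-1 ∉ M`. `B (-1) (-1) = 0`: for `c = -1` and `B a c = 1`: `B a a = B a c = 1`; if `B c c = 1` then `M ∪ c M` has ... : the classes are
`1, c, a, a c`; the form is nondegenerate with `B v v = B v c` for all `v`; `B c c = 1` would give `b` with `b ∉ M`, `B b c = 0 = B b b`, `b ∉ c M`, so `b` is orthogonal to `c, b`, hence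
in `M`, contradiction. So `B c c = 0`, `B a c = B a a = 1`, `B a (a c) = 0`. Hence for `x ∉ M ∪ cM`: `B (-x) (1 + x) = 0` gives `1 + x ∈ M ∪ x M`; for `x ∈ M`: `1 + x = 0`
is impossible and `B (-x) (1+x) = 0` gives `1 + x ∈ M ∪ cM`. If `M` is closed under addition, `P₁ = M ∪ a M` and `P₂ = M ∪ -a M` are orderings. Otherwise there are
`x, y ∈ M`, `- (x + y) ∈ M`; divide by `x`: PCDN, and `t_WB` with `H = M ∪ -M`. -/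
def S_RNAL : Prop := S_PCDN → ∀ (F : Type) [Field F] (B : Fˣ → Fˣ → ZMod 2) (M : Subgroup Fˣ), IsSymb B → IsRad B M →
  M.index = 4 → (-1 : Fˣ) ∉ M → (∃ P₁ P₂ : Subgroup Fˣ, IsOrd P₁ ∧ IsOrd P₂ ∧ P₁ ⊓ P₂ ≤ M) ∨
    ∃ O : ValuationSubring F, (∀ x : F, x ∈ O → x⁻¹ ∉ O → ∃ t ∈ M, (t : F) = 1 + x) ∧ O.unitGroup ⊔ M ≠ ⊤

/-- COAR (150 lines): `S_CO` (`EC/Stm.lean`, proof by helper63 in `EC/Co.lean`) for `p = 2`. Replace the bound `v(z) < v(p)` by `v(z) < v(4)`: (KEY) if `0 < v(z) < v(4)` and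
`1 + z = y²`, `s = y - 1`, then `s² + 2 s = z`; `v(s) ≥ v(2)` would give `v(z) ≥ v(4)`, so `v(s²) = v(z)` and `z ∈ O* F*²`. (1) If `2 ∉ O* T` take `x = 2`. The rest is the same:
(3) with the powers `x^j` of value `< v(4)`. -/
def S_COAR : Prop := ∀ (F : Type) [Field F], (2 : F) ≠ 0 → ∀ T : Subgroup Fˣ, pwG F 2 ≤ T → (pwG F 2).relIndex T ≠ 0 →
  ∀ O : ValuationSubring F, (∀ x : F, x ∈ O → x⁻¹ ∉ O → ∃ t ∈ T, (t : F) = 1 + x) → O.unitGroup ⊔ T ≠ ⊤ →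
    (∃ O' : ValuationSubring F, O ≤ O' ∧ Cp 2 T O') ∨ ∃ x : Fˣ, Subgroup.zpowers x ⊔ T = ⊤

/-- PAR3 (80 lines): the index of the radical is not 8 if `B (-1) (-1) = 0`. `V = F*/M` has order 8 and exponent 2, `B v v = B v c`, `c = -1`. If `c ∉ M` take `x` with `B x c = 1`,
otherwise `x, c'` with `B x c' = 1` and write `c'` for `c` below. The homomorphism `V → (ℤ/2)²`, `v ↦ (B v c', B v x)`, has a kernel of order at least two; let `k ≠ 1` be in it: `B k k = B k c = 0`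
(`c = c'`, or `c ∈ M`); `k ∉ <c', x>` since the form on `<c', x>` is nondegenerate (`B c' c' = 0`, `B x c' = 1`). So `k` is orthogonal to `V = <c', x, k>`, contradiction. -/
def S_PAR3 : Prop := ∀ (F : Type) [Field F] (B : Fˣ → Fˣ → ZMod 2) (M : Subgroup Fˣ), IsSymb B → IsRad B M →
  B (-1) (-1) = 0 → M.index ≠ 8

/-- NRM (40 lines): symbols vanish on norms. `v = 0`: `y = u²`. `u = 0`: `y = - x v²`, `B x (-x) = 0` (`-x = (1 - x)/(1 - x⁻¹)`, or `x = 1`). Otherwise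
`y/u² = 1 - x (v/u)²`. -/
def S_NRM : Prop := ∀ (F : Type) [Field F] (B : Fˣ → Fˣ → ZMod 2), IsSymb B →
  ∀ x y : Fˣ, (∃ u v : F, (y : F) = u ^ 2 - x * v ^ 2) → B x y = 0

/-- IDX (40 lines): the index of the radical is a power of two if it is not zero -/
def S_IDX : Prop := ∀ (F : Type) [Field F] (M : Subgroup Fˣ), (∀ x : Fˣ, x * x ∈ M) → M.index ≠ 0 →
  ∃ r : ℕ, M.index = 2 ^ r

end Pool.Agent.P8H47.FP
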