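import Pool.Agent.P8H47.FP.Asm6
import Pool.Agent.P8H1.FQ.Par3
import Pool.Agent.P8H7.FQ.Co
import Pool.Agent.P8H52.FQ.Cob
import Pool.Agent.P8H52.FQ.Br
import Pool.Agent.P8H45.FQ.Loca
import Pool.Agent.P8H20.FQ.Rad
import Pool.Agent.P8H20.FQ.Sym
import Pool.Agent.P8H21.FQ.Lno
import Pool.Agent.P8H61.FQ.Mn2
import Pool.Agent.P8H61.FQ.Solv
import Pool.Agent.P8H61.FQ.Pcdn

/-! # Project FQ, all parts -/

set_option autoImplicit false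

namespace Pool.Agent.P8H47.FP

open Pool.Agent.Results.MP_600e55_nt.SymbolPartitions (powers)
open Pool.Agent.Y920.EP (IsMaxP)

theorem c_lno : C_LNO := Pool.Agent.P8H21.FQ.lno c_c3o (Pool.Agent.P8H61.FQ.solv c_clo)
  Pool.Agent.P8H45.FQ.loca Pool.Agent.P8H21.FQ.orda

theorem exists_symbF {F : Type} [Field F] (h2 : (2 : F) ≠ 0) (hfin : (powers F 2).index ≠ 0)
    {K : IntermediateField F (AlgebraicClosure F)} (hK : IsMaxP 2 F K) (hS : ¬ Splits F) :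
    ∃ (B : Fˣ → Fˣ → ZMod 2) (M : Subgroup Fˣ), IsSymb B ∧ IsRad B M ∧ M ⊔ DD F = ⊤ ∧
      8 ≤ M.index ∧ ((∃ u v : F, (-1 : F) = u ^ 2 + v ^ 2) → 16 ≤ M.index) := by
  obtain ⟨hG, hL, -⟩ := Pool.Agent.Y469.EP.t_MAX' 2 Nat.prime_two F (exists_zeta h2) K hK
  have hsq := Pool.Agent.P8H48.EC3.root 2 Nat.prime_two F (exists_zeta h2) K hK
  have h2K : (2 : K) ≠ 0 := by
    intro h0
    apply h2
    apply (algebraMap F K).injective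
    rw [map_ofNat, map_zero]
    exact h0
  obtain ⟨P⟩ := Pool.Agent.P8H52.FQ.br (Pool.Agent.P8H52.FQ.cob c_locn) F K h2K hsq
  exact exists_symb Pool.Agent.P8H61.FQ.mn2 c_lno Pool.Agent.P8H20.FQ.sym Pool.Agent.P8H20.FQ.rone
    Pool.Agent.P8H20.FQ.ralt Pool.Agent.P8H61.FQ.pcdn Pool.Agent.P8H20.FQ.rnal
    Pool.Agent.P8H7.FQ.coar Pool.Agent.P8H1.FQ.par3 Pool.Agent.P8H7.FQ.nrm Pool.Agent.P8H1.FQ.idx
    h2 hfin P hS

theorem no_symbF {F : Type} [Field F] (hS : Splits F) {B : Fˣ → Fˣ → ZMod 2}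
    {M : Subgroup Fˣ} (hB : IsSymb B) (hM : IsRad B M) (hMD : M ⊔ DD F = ⊤) : M = ⊤ :=
  no_symb Pool.Agent.P8H7.FQ.nrm hS hB hM hMD

end Pool.Agent.P8H47.FP
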