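import Mathlib

/-! # Project FP (MP_600e55_nt, `p = 2`): local-global principles give free products (statements)

`F` is a field of characteristic not 2, `K = F(2)`, `G = Gal(K/F)`, `H i` closed subgroups with fixed fields `E i`. If
`F* → ∏ (E i)*/(E i)*²` is surjective and a quaternion algebra over `F` splits if it splits over all `E i`, then both things are
true for every finite extension of `F` in `K` (and the double cosets), and this gives that embedding problems with kernel of order two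
are solvable if they are locally solvable, so that `G` is the free pro-2 product of the `H i` (if `F*/F*² → ∏ (E i)*/(E i)*²` is also
injective). No cohomology is used. All packages import Mathlib only (and this file). -/

set_option autoImplicit false

namespace Pool.Agent.P8H47.FP

/-! ## Part 1: fields -/

/-- `y` is a norm from `M(√x)`: `y = u² - x v²` with `u, v ∈ M` -/
def Nm {K : Type} [Field K] (M : Subfield K) (x y : K) : Prop :=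
  ∃ u ∈ M, ∃ v ∈ M, y = u ^ 2 - x * v ^ 2

/-- the local-global principle for the extensions `E i` of `M` -/
structure LG {K : Type} [Field K] {ι : Type} (M : Subfield K) (E : ι → Subfield K) : Prop where
  le : ∀ i, M ≤ E i
  sur : ∀ y : ι → K, (∀ i, y i ∈ E i ∧ y i ≠ 0) →
    ∃ x ∈ M, x ≠ 0 ∧ ∀ i, ∃ w ∈ E i, w ≠ 0 ∧ x = y i * w ^ 2
  loc : ∀ x ∈ M, ∀ y ∈ M, x ≠ 0 → y ≠ 0 → (∀ i, Nm (E i) x y) → Nm M x y

/-- QSUR (120 lines, polynomial identities). We think of `α + β r`, `r² = a`, as an element of `E_i[X]/(X² - a)` (a field or a product of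
two fields, the proof is uniform). The claim is: for given invertible elements `α_i + β_i r` there is `z = z₀ + z₁ r` over `M` with
`z = (α_i + β_i r) (γ_i + δ_i r)²`.

Proof. `n_i = α_i² - a β_i² ∈ E_i`. By `sur` there is `b ∈ M` with `b = n_i w_i²`, so `b = (α_i w_i)² - a (β_i w_i)²`, by `loc` there are
`z₀', z₁' ∈ M` with `b = z₀'² - a z₁'²`. Let `z' = z₀' + z₁' r` and `t = t₀ + t₁ r = (α_i + β_i r) w_i (z₀' - z₁' r) / b`, so that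
`t₀² - a t₁² = 1` and `(α_i + β_i r) w_i = z' t`. If `1 + t₀ = 0` then `t₁ = 0` (`a ≠ 0`), so `z' = (α_i + β_i r) (- w_i)`. Otherwise
`t = (1 + t)² / (2 + 2 t₀)` and `z' = (α_i + β_i r) w_i (2 + 2 t₀) (1 + t)⁻²`, `(1 + t)⁻¹ = (1 + t₀ - t₁ r) / (2 + 2 t₀)`. In both cases
`z' = (α_i + β_i r) u_i s_i²` with `u_i ∈ E_i*` and `s_i` over `E_i`. By `sur` for `u_i⁻¹` (or `u_i`) there is `u ∈ M`, `u = u_i w'²`, and
`z = z' u` is as required. -/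
def S_QSUR : Prop := ∀ (K : Type) [Field K], (2 : K) ≠ 0 → ∀ (ι : Type) (M : Subfield K) (E : ι → Subfield K),
  LG M E → ∀ a ∈ M, a ≠ 0 → ∀ α β : ι → K, (∀ i, α i ∈ E i ∧ β i ∈ E i ∧ α i ^ 2 - a * β i ^ 2 ≠ 0) →
    ∃ z₀ ∈ M, ∃ z₁ ∈ M, z₀ ^ 2 - a * z₁ ^ 2 ≠ 0 ∧ ∀ i, ∃ γ ∈ E i, ∃ δ ∈ E i, γ ^ 2 - a * δ ^ 2 ≠ 0 ∧
      z₀ = α i * (γ ^ 2 + a * δ ^ 2) + 2 * a * β i * γ * δ ∧
      z₁ = β i * (γ ^ 2 + a * δ ^ 2) + 2 * α i * γ * δ

/-- the coefficient of `r` in `(y₀ + y₁ r) (u₀ + u₁ r)²`, `r² = a` -/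
def R {K : Type} [Field K] (a y₀ y₁ u₀ u₁ : K) : K := y₁ * (u₀ ^ 2 + a * u₁ ^ 2) + 2 * y₀ * u₀ * u₁

/-- QA (100 lines): a quadratic form of dimension 4 over `M`, the sum of the binary forms `R_y` and `- R_c` with determinants
`- (y₀² - a y₁²)`, is isotropic if it is isotropic over all `E_i`.

Proof. If `y₁ = 0` take `u = (1, 0)`, `v = 0`; if `c₁ = 0` take `u = 0`, `v = (1, 0)`. Now `y₁, c₁ ≠ 0`. We have
`y₁ R_y(u) = (y₁ u₀ + y₀ u₁)² - N_y u₁²`, `N_y = y₀² - a y₁²`; so `R_y` represents `t` over a field if and only if `Nm N_y (y₁ t)`. For each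
`i` there is `t_i ∈ E_i*` represented by `R_y` and by `R_c` over `E_i`: take `t_i = R_y(u) = R_c(v)` if this is not `0`; if it is `0` then
`u ≠ 0` or `v ≠ 0`. If `u ≠ 0` then `N_y` is a square in `E_i` (`u₁ ≠ 0` because `(y₁ u₀)² = 0` otherwise), so `N_y = w²`, `w ≠ 0`, and `R_y`
represents everything (`x² - w² y² = (x - w y)(x + w y)`); take `t_i = R_c(1, 0) = c₁`. If `v ≠ 0` take `t_i = R_y(1, 0) = y₁`.
By `sur` there is `t ∈ M`, `t ∈ t_i E_i*²`; so `Nm (E i) N_y (y₁ t)` and `Nm (E i) N_c (c₁ t)` for all `i`, and by `loc` `R_y` and `R_c`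
represent `t` over `M`; `(u, v) ≠ 0` since `t ≠ 0`. -/
def S_QA : Prop := ∀ (K : Type) [Field K], (2 : K) ≠ 0 → ∀ (ι : Type) (M : Subfield K) (E : ι → Subfield K),
  LG M E → ∀ a ∈ M, ∀ y₀ ∈ M, ∀ y₁ ∈ M, ∀ c₀ ∈ M, ∀ c₁ ∈ M, y₀ ^ 2 - a * y₁ ^ 2 ≠ 0 → c₀ ^ 2 - a * c₁ ^ 2 ≠ 0 →
    (∀ i, ∃ u₀ ∈ E i, ∃ u₁ ∈ E i, ∃ v₀ ∈ E i, ∃ v₁ ∈ E i, ¬ (u₀ = 0 ∧ u₁ = 0 ∧ v₀ = 0 ∧ v₁ = 0) ∧
      R a y₀ y₁ u₀ u₁ = R a c₀ c₁ v₀ v₁) →
    ∃ u₀ ∈ M, ∃ u₁ ∈ M, ∃ v₀ ∈ M, ∃ v₁ ∈ M, ¬ (u₀ = 0 ∧ u₁ = 0 ∧ v₀ = 0 ∧ v₁ = 0) ∧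
      R a y₀ y₁ u₀ u₁ = R a c₀ c₁ v₀ v₁

/-- `x₀ + x₁ r = u² - g v²` for suitable `u = u₀ + u₁ r`, `v = v₀ + v₁ r` over `M` (`r² = a`) -/
def Nr {K : Type} [Field K] (M : Subfield K) (a g x₀ x₁ : K) : Prop :=
  ∃ u₀ ∈ M, ∃ u₁ ∈ M, ∃ v₀ ∈ M, ∃ v₁ ∈ M, x₀ = u₀ ^ 2 + a * u₁ ^ 2 - g * (v₀ ^ 2 + a * v₁ ^ 2) ∧
    x₁ = 2 * u₀ * u₁ - 2 * g * v₀ * v₁

/-- QB (200 lines, polynomial identities): for `g ∈ M` and `x = x₀ + x₁ r` over `M` the local-global principle holds for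
`x = u² - g v²`.

Proof. Write `ū = u₀ - u₁ r`. (1) `N(x) = x x̄ = (u ū + g v v̄)² - g (u v̄ + ū v)²`, so `Nm (E i) g (N x)` for all `i` (`u ū + g v v̄ = u₀² - a u₁² +
g (v₀² - a v₁²)`, `u v̄ + ū v = 2 u₀ v₀ - 2 a u₁ v₁`), so `N(x) = A² - g B²` with `A, B ∈ M`, by `loc`. (2) `(x + A)² - g B² = x (x + x̄ + 2 A) =
x (2 x₀ + 2 A)`. If `A = 0 = x₀` then `- a x₁² = - g B²`, `B ≠ 0`, `g = a (x₁/B)²` is the square of `s = (x₁/B) r`, `s ≠ 0`, and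
`x = ((x + 1)/2)² - g ((x - 1)/(2 s))²`: done. Otherwise (change the sign of `A` if necessary) `x₀ + A ≠ 0`, and with
`c = 2 x₀ + 2 A ∈ M` and `m = (x + A)² - g B²` we have `c x = m`; so `x = h m` with `h = 1/c ∈ M` and `m` is of the form `u² - g v²` over `M`.
(3) The elements of the form `u² - g v²`, not of norm 0, are a group, over `M` and over `E_i`; so `h` has this form over all `E_i`:
`h = u₀² + a u₁² - g (v₀² + a v₁²)`, `0 = u₀ u₁ - g v₀ v₁`. It follows that `h = p q`, `Nm (E i) g p`, `Nm (E i) (a g) q`, `p, q ∈ E_i`: if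
`u₀ ≠ 0` then `u₁ = g v₀ v₁ / u₀` and `h = (u₀² - g v₀²) (1 - a g (v₁/u₀)²)`. If `u₀ = 0 = v₁`: `h = a u₁² - g v₀² = (- g) (v₀² - a g (u₁/g)²)`. If
`u₀ = 0 = v₀`: `h = a (u₁² - g v₁²)`, `a = (- g) (- a g) / g²`. (4) By `sur` there is `p' ∈ M`, `p' ∈ p_i E_i*²`, `q' = h/p'`; by `loc`
`Nm M g p'` and `Nm M (a g) q'`: `q' = u² - a g v² = u² - g (r v)²`. So `h` and `x = h m` are of the form `u² - g v²` over `M`. -/
def S_QB : Prop := ∀ (K : Type) [Field K], (2 : K) ≠ 0 → ∀ (ι : Type) (M : Subfield K) (E : ι → Subfield K),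
  LG M E → ∀ a ∈ M, a ≠ 0 → ∀ g ∈ M, g ≠ 0 → ∀ x₀ ∈ M, ∀ x₁ ∈ M, x₀ ^ 2 - a * x₁ ^ 2 ≠ 0 →
    (∀ i, Nr (E i) a g x₀ x₁) → Nr M a g x₀ x₁

/-- the field `M(r)` (for `r² ∈ M`) -/
def adj {K : Type} [Field K] (M : Subfield K) (r : K) : Subfield K := Subfield.closure (M ∪ {r})

/-- ADJ (60 lines): the elements of `M(r)`. For `r ∉ M`: `(u + v r)⁻¹ = (u - v r) / (u² - r² v²)`. -/
def S_ADJ : Prop := ∀ (K : Type) [Field K] (M : Subfield K) (r : K), r ^ 2 ∈ M →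
  ∀ x : K, x ∈ adj M r ↔ ∃ u ∈ M, ∃ v ∈ M, x = u + v * r

/-- the fields over `M(r)`: `E_i(r)`, and also `σ E_i` if `r ∈ E_i` -/
noncomputable def famF {K : Type} [Field K] {ι : Type} (E : ι → Subfield K) (r : K) (σ : K ≃+* K)
    (q : {q : ι × Bool // q.2 = true → r ∈ E q.1}) : Subfield K :=
  if q.1.2 = true then (E q.1.1).map (σ : K →+* K) else adj (E q.1.1) r

/-- QE (200 lines): the local-global principle goes up to `M(r)`.

Proof. `a = r²`. For `sur`: if `r ∉ E_i` write the given element of `E_i(r)` as `α_i + β_i r`; if `r ∈ E_i` and `p ∈ E_i`, `q ∈ σ E_i` are given, let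
`q' = σ⁻¹ q ∈ E_i`, `α_i = (p + q')/2`, `β_i = (p - q')/(2 r)`. Use QSUR; `σ⁻¹ (z₀ + z₁ r) = z₀ - z₁ r`. For `loc`: let `x = x₀ + x₁ r`,
`y = y₀ + y₁ r`. (1) In the same way `y = u² - x v²` with `u = u₀ + u₁ r`, `v = v₀ + v₁ r` over `E_i`, as an identity in `E_i[X]/(X² - a)`: two
equations for the coefficients (if `r ∉ E_i` the coefficients are unique; if `r ∈ E_i` the identity holds for `r` and for `- r`).
(2) Let `y' = y⁻¹`, `c = x y'`: `y' u² - c v² = 1`, so `R_y'(u) = R_c(v)`, and `(u, v) ≠ 0`. By QA there are `u, v ∈ M(r)`, not both `0`, with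
`g := y' (u² - x v²) ∈ M`. If `g = 0` then `v ≠ 0`, `x = (u/v)²` is a square in `M(r)` and every `y` is a norm (`y = ((y+1)/2)² - s² ((y-1)/(2s))²`).
(3) If `g ≠ 0`: `n := u² - x v² = g y`. Locally (over `E_i(r)`, `E_i`, `σ E_i`) `y` and `n` are norms `u² - x v²`, hence `g = n/y` too, hence `x` is of
the form `u² - g v²` (if `g = u² - x v²`, `v ≠ 0`, then `x = (u/v)² - g (1/v)²`; if `v = 0` then `g` is a square), in both places if `r ∈ E_i`, so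
`Nr (E i) a g x₀ x₁`; by QB `Nr M a g x₀ x₁`, so `x = u² - g v²` in `M(r)`, so `g` is a norm, and so is `y = n/g`. -/
def C_QE : Prop := ∀ (K : Type) [Field K], (2 : K) ≠ 0 →
  ∀ (ι : Type) (M : Subfield K) (E : ι → Subfield K), LG M E → ∀ (r : K) (σ : K ≃+* K), r ^ 2 ∈ M → r ∉ M →
    (∀ x ∈ M, σ x = x) → σ r = - r → LG (adj M r) (famF E r σ)

/-- see above -/
def S_QE : Prop := S_QSUR → S_QA → S_QB → S_ADJ → C_QE

/-! ## Part 2: groups -/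

/-- the field of the elements fixed by `H` -/
noncomputable def Fx {F K : Type} [Field F] [Field K] [Algebra F K] (H : Subgroup (K ≃ₐ[F] K)) : Subfield K :=
  (IntermediateField.fixedField H).toSubfield

/-- the groups over `U' = {g ∈ U | g r = r}`: `{g ∈ H_i | g r = r}`, and also `σ H_i σ⁻¹` if `H_i` fixes `r` -/
noncomputable def famG {F K : Type} [Field F] [Field K] [Algebra F K] {ι : Type} (H : ι → Subgroup (K ≃ₐ[F] K)) (r : K)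
    (σ : K ≃ₐ[F] K) (q : {q : ι × Bool // q.2 = true → r ∈ Fx (H q.1)}) : Subgroup (K ≃ₐ[F] K) :=
  if q.1.2 = true then (H q.1.1).map (MulAut.conj σ).toMonoidHom
  else H q.1.1 ⊓ MulAction.stabilizer (K ≃ₐ[F] K) r

/-- STEP (100 lines): the local-global principle goes up, in terms of groups. `Fx (H ⊓ stab r) = adj (Fx H) r` for `r² ∈ Fx H`: if `r ∉ Fx H`
there is `τ ∈ H` with `τ r = - r`; `H' = H ⊓ stab r` is normal in `H` of index 2; for `x ∈ Fx H'` the elements `x + τ x` and `(x - τ x)/r` are in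
`Fx H`. `Fx (σ H σ⁻¹) = σ (Fx H)`. -/
def C_STEP : Prop := ∀ (F K : Type) [Field F] [Field K] [Algebra F K], (2 : K) ≠ 0 →
  ∀ (ι : Type) (U : Subgroup (K ≃ₐ[F] K)) (H : ι → Subgroup (K ≃ₐ[F] K)), (∀ i, H i ≤ U) →
    LG (Fx U) (fun i => Fx (H i)) → ∀ (r : K) (σ : K ≃ₐ[F] K), r ^ 2 ∈ Fx U → σ ∈ U → σ r = - r → r ≠ 0 →
      LG (Fx (U ⊓ MulAction.stabilizer (K ≃ₐ[F] K) r)) (fun q => Fx (famG H r σ q))

/-- see above -/
def S_STEP : Prop := S_ADJ → C_QE → C_STEP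

/-- `ψ` is a continuous homomorphism on the subgroup `U` -/
structure HomOn {G P : Type} [Group G] [TopologicalSpace G] [Group P] (U : Subgroup G) (ψ : G → P) : Prop where
  mul : ∀ g ∈ U, ∀ h ∈ U, ψ (g * h) = ψ g * ψ h
  cont : ∃ V : Subgroup G, IsOpen (V : Set G) ∧ ∀ v ∈ V, v ∈ U → ψ v = 1

/-- KUM (60 lines): characters of order two of closed subgroups are given by square roots.

Proof: `H₁ = {h ∈ H | χ h = 1}` is a closed subgroup. If `H₁ = H` take `s = 1`. Otherwise there is `τ ∈ H`, `χ τ = -1`. By the Galois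
correspondence there is `x ∈ K` fixed by `H₁` and not by `τ` (`InfiniteGalois`); `s = x - τ x` (`τ² ∈ H₁`, `H₁` normal in `H`). -/
def S_KUM : Prop := ∀ (F K : Type) [Field F] [Field K] [Algebra F K] [IsGalois F K] (H : Subgroup (K ≃ₐ[F] K)),
  IsClosed (H : Set (K ≃ₐ[F] K)) → ∀ χ : (K ≃ₐ[F] K) → ℤˣ, HomOn H χ →
    ∃ s : K, s ≠ 0 ∧ ∀ h ∈ H, h s = (((χ h : ℤˣ) : ℤ) : K) * s

/-- EXT (80 lines): extension of a homomorphism from a subgroup `U'` of index two: `ψ g = θ (g σ⁻¹) s` for `g ∉ U'`. -/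
def S_EXT : Prop := ∀ (G P : Type) [Group G] [Group P] (U U' : Subgroup G) (σ : G), U' ≤ U → σ ∈ U → σ ∉ U' →
  (∀ g ∈ U, g ∉ U' → g * σ⁻¹ ∈ U') → (∀ h ∈ U', σ * h * σ⁻¹ ∈ U') → σ * σ ∈ U' → ∀ (θ : G → P) (s : P),
    (∀ g ∈ U', ∀ h ∈ U', θ (g * h) = θ g * θ h) → (∀ h ∈ U', θ (σ * h * σ⁻¹) = s * θ h * s⁻¹) → θ (σ * σ) = s * s →
    ∃ ψ : G → P, (∀ g ∈ U, ∀ h ∈ U, ψ (g * h) = ψ g * ψ h) ∧ (∀ h ∈ U', ψ h = θ h) ∧ ψ σ = s

/-- `c^ε`, `ε = 1` or `-1`, for `c` of order two: `1` if `ε = 1` and `c` if `ε = -1` -/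
def cp {P : Type} [Group P] (c : P) (ε : ℤˣ) : P := if ε = 1 then 1 else c

/-- CHAR (150 lines, group theory): `π : P → Q` with kernel `{1, c}`, `c` central; `ψ` is a homomorphism on `U`, and `θ` lifts it on the subgroup
`U'` of index two. Then there is a character `X` of `U` which describes how far `θ` is from a lift on `U`.

Proof. Choose `s₀` with `π s₀ = ψ σ`. For `h ∈ U'` both `θ (σ h σ⁻¹)` and `s₀ θ(h) s₀⁻¹` are lifts of the same element; so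
`θ (σ h σ⁻¹) = s₀ θ(h) s₀⁻¹ c^(χ h)`, `χ : U' → ±1` is a homomorphism since `c` is central. `θ (σ²) = s₀² c^ε`. Applying the first formula twice:
`χ (σ h σ⁻¹) = χ h`; for `h = σ²`: `χ (σ²) = 1`. By EXT (`P = ℤˣ`, `s = ε`) there is `X` on `U` with `X = χ` on `U'` and `X σ = ε`. For `τ = k σ`, `k ∈ U'`, and
`s_τ = θ(k) s₀` or `θ(k) s₀ c` the two formulas follow. Continuity: `X = 1` on `V ∩ σ⁻¹ V σ ∩ U'`, `V` as for `θ` (`U'` is relatively open in `U`: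
`hU'`). -/
def C_CHAR : Prop := ∀ (G P Q : Type) [Group G] [TopologicalSpace G] [IsTopologicalGroup G] [Group P] [Group Q]
  (π : P →* Q) (c : P), Function.Surjective π → (∀ x, π x = 1 ↔ x = 1 ∨ x = c) → c ≠ 1 → (∀ x, x * c = c * x) →
  ∀ (U U' : Subgroup G) (σ : G), U' ≤ U → σ ∈ U → σ ∉ U' → (∀ g ∈ U, g ∉ U' → g * σ⁻¹ ∈ U') →
    (∀ h ∈ U', σ * h * σ⁻¹ ∈ U') → σ * σ ∈ U' → (∃ V : Subgroup G, IsOpen (V : Set G) ∧ ∀ v ∈ V, v ∈ U → v ∈ U') →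
    ∀ ψ : G → Q, HomOn U ψ → ∀ θ : G → P, HomOn U' θ → (∀ h ∈ U', π (θ h) = ψ h) →
      ∃ X : G → ℤˣ, HomOn U X ∧ ∀ τ ∈ U, τ ∉ U' → ∀ s : P, π s = ψ τ →
        (∀ h ∈ U', θ (τ * h * τ⁻¹) = s * θ h * s⁻¹ * cp c (X h)) ∧ θ (τ * τ) = s * s * cp c (X τ)

/-- see above -/
def S_CHAR : Prop := S_EXT → C_CHAR

/-- LOCN (80 lines). `H' = H ⊓ stab r`, `r ∉ Fx H`, `δ` a character of `H'`, `X h = δ(h) δ(τ h τ⁻¹)` on `H'`, `X τ = δ(τ²)`.

Proof. KUM for `H'`: `f'` with `h f' = δ(h) f'`; `f = f'² ∈ Fx H'`; `ρ = f' τ(f')`: `h ρ = δ(h) δ(τ⁻¹ h τ) ρ = X(h) ρ` for `h ∈ H'`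
(`δ(τ⁻¹ h τ) = δ(τ h τ⁻¹)` since `τ² ∈ H'`) and `τ ρ = τ(f') τ²(f') = δ(τ²) ρ = X(τ) ρ`. So `s/ρ ∈ Fx H`, and `ρ² = f τ(f)`; `f = u + v r` with `u, v ∈ Fx H`
(see STEP), `f τ(f) = u² - r² v²`. -/
def C_LOCN : Prop := ∀ (F K : Type) [Field F] [Field K] [Algebra F K] [IsGalois F K], (2 : K) ≠ 0 →
  ∀ (H : Subgroup (K ≃ₐ[F] K)), IsClosed (H : Set (K ≃ₐ[F] K)) → ∀ (r : K) (τ : K ≃ₐ[F] K), r ^ 2 ∈ Fx H → r ≠ 0 →
    τ ∈ H → τ r = - r → ∀ (X δ : (K ≃ₐ[F] K) → ℤˣ), HomOn H X → HomOn (H ⊓ MulAction.stabilizer (K ≃ₐ[F] K) r) δ →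
      (∀ h ∈ H, h r = r → X h = δ h * δ (τ * h * τ⁻¹)) → X τ = δ (τ * τ) →
      ∀ s : K, s ≠ 0 → (∀ h ∈ H, h s = (((X h : ℤˣ) : ℤ) : K) * s) → Nm (Fx H) (r ^ 2) (s ^ 2)

/-- see above -/
def S_LOCN : Prop := S_KUM → C_LOCN

/-- TWIST (80 lines): the converse. `f = u + v r`, `f'² = f` (`K` is closed under square roots), `δ(h) = h(f')/f'` for `h ∈ U' = U ⊓ stab r`
(`h f = f`), `ρ = f' σ(f')`, `ρ² = f σ(f) = s²`, so `ρ = ± s` has the character `X`; now as in LOCN. `f ≠ 0` since `s ≠ 0`. Continuity: the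
stabilizer of `f'` is open. -/
def S_TWIST : Prop := ∀ (F K : Type) [Field F] [Field K] [Algebra F K] [IsGalois F K], (2 : K) ≠ 0 →
  (∀ c : K, ∃ y, y ^ 2 = c) → ∀ (U : Subgroup (K ≃ₐ[F] K)) (r : K) (σ : K ≃ₐ[F] K), r ^ 2 ∈ Fx U → r ≠ 0 →
    σ ∈ U → σ r = - r → ∀ (X : (K ≃ₐ[F] K) → ℤˣ) (s : K), s ≠ 0 →
      (∀ h ∈ U, h s = (((X h : ℤˣ) : ℤ) : K) * s) → Nm (Fx U) (r ^ 2) (s ^ 2) →
      ∃ δ : (K ≃ₐ[F] K) → ℤˣ, HomOn (U ⊓ MulAction.stabilizer (K ≃ₐ[F] K) r) δ ∧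
        (∀ h ∈ U, h r = r → X h = δ h * δ (σ * h * σ⁻¹)) ∧ X σ = δ (σ * σ)

/-- an embedding problem with kernel of order two is solvable if it is locally solvable -/
def Emb {F K : Type} [Field F] [Field K] [Algebra F K] {ι : Type} (U : Subgroup (K ≃ₐ[F] K))
    (H : ι → Subgroup (K ≃ₐ[F] K)) {P Q : Type} [Group P] [Group Q] (π : P →* Q) (ψ : (K ≃ₐ[F] K) → Q) : Prop :=
  (∀ i, ∃ φ : (K ≃ₐ[F] K) → P, HomOn (H i) φ ∧ ∀ h ∈ H i, π (φ h) = ψ h) →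
    ∃ θ : (K ≃ₐ[F] K) → P, HomOn U θ ∧ ∀ g ∈ U, π (θ g) = ψ g

/-- DESC (150 lines): descent. Given a lift `θ'` of `ψ` on `U' = U ⊓ stab r`.

Proof. Take `X` from CHAR and `s` from KUM (for `U`, `X`); `s² ∈ Fx U`. For all `i`: `Nm (Fx (H i)) (r²) (s²)`: if `r ∈ Fx (H i)` this is clear
(`r² v² - ...`: `s² = ((s²+1)/2)² - r² ((s²-1)/(2r))²`). If not, let `τ ∈ H i` with `τ r = - r`, `φ` the local lift; for `h ∈ H i ⊓ stab r`
`θ'(h) = φ(h) c^(δ h)` defines `δ`, and the formulas of CHAR for `τ` and `s_τ = φ(τ)` give `X h = δ(h) δ(τ h τ⁻¹)`, `X τ = δ(τ²)`; use LOCN.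
By `loc` `Nm (Fx U) (r²) (s²)`; TWIST gives `δ` on `U'`, and `θ'' h = θ'(h) c^(δ h)` satisfies `θ''(σ h σ⁻¹) = s₀ θ''(h) s₀⁻¹`, `θ''(σ²) = s₀²` for
`π s₀ = ψ σ`; use EXT. Continuity of the extension `θ`: `θ = θ''` on `U'` and `U'` is relatively open. -/
def C_DESC : Prop := ∀ (F K : Type) [Field F] [Field K] [Algebra F K]
  [IsGalois F K], (2 : K) ≠ 0 → (∀ c : K, ∃ y, y ^ 2 = c) → ∀ (ι : Type) (U : Subgroup (K ≃ₐ[F] K))
  (H : ι → Subgroup (K ≃ₐ[F] K)), IsClosed (U : Set (K ≃ₐ[F] K)) → (∀ i, H i ≤ U ∧ IsClosed (H i : Set (K ≃ₐ[F] K))) →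
  LG (Fx U) (fun i => Fx (H i)) → ∀ (r : K) (σ : K ≃ₐ[F] K), r ^ 2 ∈ Fx U → r ≠ 0 → σ ∈ U → σ r = - r →
  ∀ (P Q : Type) [Group P] [Group Q] (π : P →* Q) (c : P), Function.Surjective π → (∀ x, π x = 1 ↔ x = 1 ∨ x = c) →
    c ≠ 1 → (∀ x, x * c = c * x) → ∀ ψ : (K ≃ₐ[F] K) → Q, HomOn U ψ →
    (∃ θ' : (K ≃ₐ[F] K) → P, HomOn (U ⊓ MulAction.stabilizer (K ≃ₐ[F] K) r) θ' ∧
      ∀ g ∈ U, g r = r → π (θ' g) = ψ g) → Emb U H π ψ

/-- see above -/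
def S_DESC : Prop := S_KUM → S_EXT → C_CHAR → C_LOCN → S_TWIST → C_DESC

/-- EMB (150 lines): induction on the number of elements of `ψ(U)`.

Proof. If `ψ = 1` on `U` take `θ = 1`. Otherwise `ψ(U)` is a nontrivial subgroup of the 2-group `Q` and has a subgroup of index two; this gives a
character `χ : U → ±1`, `χ ≠ 1`, trivial if `ψ = 1`; KUM gives `r` with `g r = χ(g) r`; `r² ∈ Fx U`. Let `σ ∈ U`, `χ(σ) = -1`. `ψ(U ⊓ stab r)` is smaller.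
The groups `famG H r σ` (closed, in `U ⊓ stab r`) satisfy LG by STEP, and there are local lifts: `φ_i`, and `σ h σ⁻¹ ↦ s φ_i(h) s⁻¹`, `π s = ψ σ`. By
induction there is a lift on `U ⊓ stab r`; use DESC. -/
def C_EMB : Prop :=
  ∀ (F K : Type) [Field F] [Field K] [Algebra F K] [IsGalois F K], (2 : K) ≠ 0 → (∀ c : K, ∃ y, y ^ 2 = c) →
  ∀ (P Q : Type) [Group P] [Group Q] [Finite Q] (π : P →* Q) (c : P), (∃ k : ℕ, Nat.card Q = 2 ^ k) →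
    Function.Surjective π → (∀ x, π x = 1 ↔ x = 1 ∨ x = c) → c ≠ 1 → (∀ x, x * c = c * x) →
  ∀ (ι : Type) (U : Subgroup (K ≃ₐ[F] K)) (H : ι → Subgroup (K ≃ₐ[F] K)), IsClosed (U : Set (K ≃ₐ[F] K)) →
    (∀ i, H i ≤ U ∧ IsClosed (H i : Set (K ≃ₐ[F] K))) → LG (Fx U) (fun i => Fx (H i)) →
      ∀ ψ : (K ≃ₐ[F] K) → Q, HomOn U ψ → Emb U H π ψ

/-- see above -/
def S_EMB : Prop := S_KUM → C_STEP → C_DESC → C_EMB

/-- `G` is the free pro-2 product of the closed subgroups `H i` -/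
def Free {G : Type} [Group G] [TopologicalSpace G] {ι : Type} (H : ι → Subgroup G) : Prop :=
  ∀ (P : Type) [Group P] [Finite P], (∃ k : ℕ, Nat.card P = 2 ^ k) →
    ∀ φ : (i : ι) → (H i →* P), (∀ i, IsOpen ((φ i).ker : Set (H i))) →
      ∃! ψ : G →* P, IsOpen (ψ.ker : Set G) ∧ ∀ i, ∀ x : H i, ψ (x : G) = φ i x

/-- FREE (200 lines).

Proof. Existence: by induction on `P`. `P ≠ 1` has a central element `c` of order 2; `Q = P/{1,c}`; `ψ₁ : G → Q` by induction; by EMB (`U = ⊤`)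
it lifts to `ψ₂ : G → P`. On `H i` we have `φ_i = ψ₂ c^(δ_i)` with a continuous character `δ_i`; KUM: `e_i ∈ K` with `h e_i = δ_i(h) e_i`; by `sur` there is
`x ∈ Fx ⊤`, `x = e_i² w_i²`, `w_i ∈ Fx (H i)`; let `x' ∈ K`, `x'² = x`; `x' = ± e_i w_i`, so `h x' = δ_i(h) x'` for `h ∈ H i`; the character `χ` of `x'` on `G`
gives `ψ = ψ₂ c^χ`. (`HomOn (H i) φ` for `φ : G → P` and homomorphisms `H i →* P` with open kernel: extend by `1`, the kernel contains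
`V ∩ H i` for an open subgroup `V` since the topology of `G` has a basis of open subgroups at `1`.) Uniqueness: if `ψ ≠ ψ'` agree on all `H i`, the
image of `(ψ, ψ') : G → P × P` is a 2-group which is not contained in the diagonal `Δ`; `Im ∩ Δ` is contained in a subgroup of `Im` of index two (a proper
subgroup of a `p`-group is contained in a normal subgroup of index `p`). This is a continuous character `χ ≠ 1` of `G`, trivial on all `H i`. KUM: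
`s` with `g s = χ(g) s`; `s ∈ Fx (H i)` for all `i`, `s² ∈ Fx ⊤`, so `s² = w²`, `w ∈ Fx ⊤` (last hypothesis), `s = ± w`, so `χ = 1`. -/
def C_FREE : Prop := ∀ (F K : Type) [Field F] [Field K] [Algebra F K] [IsGalois F K], (2 : K) ≠ 0 →
  (∀ c : K, ∃ y, y ^ 2 = c) → ∀ (ι : Type) (H : ι → Subgroup (K ≃ₐ[F] K)),
    (∀ i, IsClosed (H i : Set (K ≃ₐ[F] K))) →
    LG (Fx (⊤ : Subgroup (K ≃ₐ[F] K))) (fun i => Fx (H i)) →
    (∀ x ∈ Fx (⊤ : Subgroup (K ≃ₐ[F] K)), x ≠ 0 → (∀ i, ∃ w ∈ Fx (H i), x = w ^ 2) →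
      ∃ w ∈ Fx (⊤ : Subgroup (K ≃ₐ[F] K)), x = w ^ 2) →
    Free H

/-- see above -/
def S_FREE : Prop := S_KUM → C_EMB → C_FREE

end Pool.Agent.P8H47.FP
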