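import Pool.Agent.P8H47.FP.Stm

/-! # Project FP, part 3: factors `ℤ₂` (statements). Mathlib only. -/

set_option autoImplicit false

namespace Pool.Agent.P8H47.FP

/-- INF (60 lines): an automorphism of infinite order.

Proof. Let `i ∈ K`, `i² = -1`. (1) Let `τ² = 1`, `τ ≠ 1`. Then `τ i = - i`: otherwise `τ i = i`; there is `x ≠ 0` with `τ x = - x` (`x = y - τ y`); let `y² = x`;
`(τ y)² = - x = (i y)²`, so `τ y = ± i y` and `τ² y = - y ≠ y`. (2) Suppose that `σ` has finite order; the hypothesis gives that the order is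
`2^m`; `m ≥ 1` as `σ s = - s`. If `m ≥ 2` then `τ = σ^(2^(m-1))` is a square `τ = ρ²`, `ρ i = ± i`, so `τ i = i`, contradiction to (1). So
`σ² = 1`, `σ i = - i`. `w = s i` is fixed by `σ`, `w² = - t`. So `-1 = u² - t v² = u² + (w v)²` with `u, v ∈ Fx ⊤`. `κ = u + w v i` has
`κ σ(κ) = -1`. Let `λ² = κ`; `(λ σ(λ))² = -1`, so `λ σ(λ) = ± i`; but `λ σ(λ)` is fixed by `σ`. -/
def S_INF : Prop := ∀ (F K : Type) [Field F] [Field K] [Algebra F K], (2 : K) ≠ 0 → (∀ c : K, ∃ y, y ^ 2 = c) →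
  ∀ (t s : K) (σ : K ≃ₐ[F] K), t ∈ Fx (⊤ : Subgroup (K ≃ₐ[F] K)) → t ≠ 0 → s ^ 2 = t → σ s = - s →
    Nm (Fx (⊤ : Subgroup (K ≃ₐ[F] K))) t (-1) → ∀ n : ℕ, σ ^ (2 ^ n) ≠ 1

/-- ZTWO (200 lines): a procyclic pro-2 group which is infinite is isomorphic to `ℤ₂`.

Proof. `C` is the closure of the powers of `σ`, compact. Every neighbourhood of `1` contains an open normal subgroup `N` of `G`, and contains
`σ^(2^k)` for some `k` by the hypothesis. So `n ↦ σ^n`, `ℤ → C`, is uniformly continuous for the 2-adic uniformity and extends to a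
continuous homomorphism `f : ℤ₂ → C` (dense range of `ℤ → ℤ₂`; or: for `a ∈ ℤ₂` the sequence `σ^(appr a n)` is Cauchy and converges in the compact group `C`).
Its image is compact and contains the powers of `σ`, so `f` is surjective. If `f(a) = 1`, `a ≠ 0`, `a = 2^k u` with a unit `u`, then
`f(2^k) = 1` (`f(a b) = 1` for `b ∈ ℤ`, so for all `b ∈ ℤ₂`), `σ^(2^k) = 1`. So `f` is bijective, and a homeomorphism. -/
def S_ZTWO : Prop := ∀ (G : Type) [Group G] [TopologicalSpace G] [IsTopologicalGroup G] [CompactSpace G] [T2Space G]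
  [TotallyDisconnectedSpace G] (σ : G), (∀ N : Subgroup G, N.Normal → IsOpen (N : Set G) → ∃ k : ℕ, σ ^ (2 ^ k) ∈ N) →
    (∀ n : ℕ, σ ^ (2 ^ n) ≠ 1) →
    Nonempty (↥((Subgroup.zpowers σ).topologicalClosure) ≃ₜ* Multiplicative (PadicInt 2))

/-- FAM (200 lines): enlarging the family of the `H i` by procyclic groups such that `F*/F*² → ∏ (E i)*/(E i)*²` becomes injective.

`D` is the set of the `x ∈ Fx ⊤`, `x ≠ 0`, which are squares in all `Fx (H i)`; `t 1, ..., t d` is a basis of `D` modulo squares.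
Proof. Let `s_k² = t_k`, `χ_k(g) = g(s_k)/s_k = ± 1`. (1) The image `W` of `G → (ℤ/2)^d`, `g ↦ (χ_k(g))_k` (additively) is everything: otherwise there is a
linear form `ε ≠ 0` on `(ZMod 2)^d` which vanishes on `W` (`Submodule.exists_le_ker_of_lt_top`); so `Π s_k^(ε_k)` is fixed by `G` and `Π t_k^(ε_k)` is
the square of an element of `Fx ⊤`, contradiction to the independence. So there is `σ_j ∈ G` with `σ_j s_j = - s_j` and `σ_j s_k = s_k` for `k ≠ j`.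
`C_j` = closure of the powers of `σ_j`; `Fx C_j = {x | σ_j x = x}` (the stabilizer of `x` is open, hence closed). (2) Every
`y ∈ Fx C_j`, `y ≠ 0`, is `w²` or `t_j w²` with `w ∈ Fx C_j`: let `z² = y`, `σ_j z = ± z`; in the second case `w = z s_j / t_j`. (3) `sur`: given `y_i, y_j`, let
`x₀` be as in `sur` for the `y_i`, and `x = x₀ Π t_j` over the `j` for which `x₀/y_j` is not a square in `Fx C_j` (`t_k = s_k²`, `s_k ∈ Fx C_j` for
`k ≠ j`). `loc` has fewer hypotheses. (4) If `x ∈ Fx ⊤` is a square in all fields then `x ∈ D`, `x = Π t_k^(ε_k) w²`, and `ε_j = 0` since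
`x = z²`, `z ∈ Fx C_j`, `z = ± Π s_k^(ε_k) w`. -/
def S_FAM : Prop := ∀ (F K : Type) [Field F] [Field K] [Algebra F K] [IsGalois F K], (2 : K) ≠ 0 →
  (∀ c : K, ∃ y, y ^ 2 = c) → ∀ (ι : Type) (H : ι → Subgroup (K ≃ₐ[F] K)),
    LG (Fx (⊤ : Subgroup (K ≃ₐ[F] K))) (fun i => Fx (H i)) → ∀ (d : ℕ) (t : Fin d → K),
    (∀ j, t j ∈ Fx (⊤ : Subgroup (K ≃ₐ[F] K)) ∧ t j ≠ 0 ∧ ∀ i, ∃ w ∈ Fx (H i), t j = w ^ 2) →
    (∀ x ∈ Fx (⊤ : Subgroup (K ≃ₐ[F] K)), x ≠ 0 → (∀ i, ∃ w ∈ Fx (H i), x = w ^ 2) →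
      ∃ J : Finset (Fin d), ∃ w ∈ Fx (⊤ : Subgroup (K ≃ₐ[F] K)), x = (∏ j ∈ J, t j) * w ^ 2) →
    (∀ J : Finset (Fin d), (∃ w ∈ Fx (⊤ : Subgroup (K ≃ₐ[F] K)), ∏ j ∈ J, t j = w ^ 2) → J = ∅) →
    ∃ σ : Fin d → (K ≃ₐ[F] K), (∀ j, ∃ s : K, s ^ 2 = t j ∧ σ j s = - s) ∧
      LG (Fx (⊤ : Subgroup (K ≃ₐ[F] K)))
        (fun q : ι ⊕ Fin d => Fx (Sum.elim H (fun j => (Subgroup.zpowers (σ j)).topologicalClosure) q)) ∧
      (∀ x ∈ Fx (⊤ : Subgroup (K ≃ₐ[F] K)), x ≠ 0 →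
        (∀ q : ι ⊕ Fin d, ∃ w ∈ Fx (Sum.elim H (fun j => (Subgroup.zpowers (σ j)).topologicalClosure) q), x = w ^ 2) →
        ∃ w ∈ Fx (⊤ : Subgroup (K ≃ₐ[F] K)), x = w ^ 2)

end Pool.Agent.P8H47.FP
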