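import Pool.Agent.P8H47.FP.Stm
import Pool.Agent.P8H47.EC3.Grp

/-! # Project FP, part 5: the converse (statements), `p = 2` -/

set_option autoImplicit false

namespace Pool.Agent.P8H47.FP

open Pool.Agent.Y920.EP (IsMaxP)
open Pool.Agent.P8H47.EC (Cp MinCp)
open Pool.Agent.P8H47.EC3 (Imm Z)

/-- DFOUR (100 lines): the dihedral group of order 8 and quaternion algebras.

`P = DihedralGroup 4`, `c = r 2`, `φ₁ (r i) = φ₂ (r i) = φ₂ (sr i) = (-1)^i`, `φ₁ (sr i) = (-1)^(i+1)`. `ker φ₂ = {r 0, r 2, sr 0, sr 2}` has the character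
`λ` with `λ (r 2) = λ (sr 2) = -1`, `λ (sr 0) = 1`; if `φ₂ x = -1`, `φ₂ v = 1` then `λ (x v x⁻¹) = λ(v) φ₁(v)` and `λ (x x) = φ₁ x` (`decide`). If `b ∈ Fx ⊤`
then every element is of the form `u² - b² v²`. Otherwise let `τ b = - b`; use LOCN for `H = ⊤`, `r = b`, `X g = g(a)/a = φ₁ (ψ g)`, `δ = λ ∘ ψ`, `s = a`. -/
def S_DFOUR : Prop := C_LOCN → ∃ (P : Type) (_ : Group P) (_ : Finite P) (φ₁ φ₂ : P →* ℤˣ) (c : P),
  Nat.card P = 8 ∧ Function.Surjective (φ₁.prod φ₂) ∧ (∀ x, φ₁.prod φ₂ x = 1 ↔ x = 1 ∨ x = c) ∧ c ≠ 1 ∧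
    (∀ x, x * c = c * x) ∧ ∀ (F K : Type) [Field F] [Field K] [Algebra F K] [IsGalois F K], (2 : K) ≠ 0 →
    ∀ a b : K, a ≠ 0 → b ≠ 0 → a ^ 2 ∈ Fx (⊤ : Subgroup (K ≃ₐ[F] K)) → b ^ 2 ∈ Fx (⊤ : Subgroup (K ≃ₐ[F] K)) →
      ∀ ψ : (K ≃ₐ[F] K) → P, HomOn ⊤ ψ → (∀ g, g a = (((φ₁ (ψ g) : ℤˣ) : ℤ) : K) * a) →
        (∀ g, g b = (((φ₂ (ψ g) : ℤˣ) : ℤ) : K) * b) → Nm (Fx (⊤ : Subgroup (K ≃ₐ[F] K))) (b ^ 2) (a ^ 2)

/-- LIFTZ (100 lines): `ℤ₂` is projective. Let `e : C ≃ ℤ₂`, `g₀ = e⁻¹ 1`, `π p = ψ g₀`, `p^(2^k) = 1`; `φ h = p ^ (PadicInt.toZModPow k (e h)).val` for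
`h ∈ C`; `π ∘ φ = ψ` on `C` since both are continuous and agree on the powers of `g₀`, which are dense. -/
def S_LIFTZ : Prop := ∀ (G : Type) [Group G] [TopologicalSpace G] [IsTopologicalGroup G] (C : Subgroup G),
  Nonempty (↥C ≃ₜ* Multiplicative (PadicInt 2)) → ∀ (P Q : Type) [Group P] [Group Q] [Finite P] (π : P →* Q),
    (∃ k : ℕ, Nat.card P = 2 ^ k) → Function.Surjective π → ∀ ψ : G → Q, HomOn C ψ →
      ∃ φ : G → P, HomOn C φ ∧ ∀ h ∈ C, π (φ h) = ψ h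

/-- DECT (200 lines): a decomposition group with nontrivial inertia gives a compatible valuation ring of `F` (`K = F(2)`, residue characteristic not 2).

Write `E` for the fixed field of `Z O`, `m` for the maximal ideal of `O`. `hI`: `E` is immediate over `F` (`dec_fieldAll` in `P8H47/FP/Dec2.lean`), and
`hR`: the elements of `1 + m_E` are squares in `E`. Proof that `O₀* T' ≠ F*` (`O₀ = O ∩ F`; the rest is easy): suppose that every element of `F*` is in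
`O₀* T'`. Then by `hI` every element of `E*` is a unit of `O` times a square of `E`, so `v(E*)` is 2-divisible. (1) Every `x ∈ K*` is `u e` with
`e ∈ E`, `u ∈ O*`: `x` has `2^k` conjugates under `Z O` (`hL`: `x` is in a finite Galois extension `L` of `F` of 2-power degree; the product over the image
of `Z O` in `Gal(L/F)` is simplest), all with the same value (an automorphism of finite order of a linearly ordered group is trivial), their product
`N ∈ E`, `v(N) = 2^k v(x) = 2^k v(e)`. (2) So `τ x / x ∈ 1 + m` for all `x ∈ K*`. (3) There is `s ∈ K*` with `τ s = - s`: `τ ≠ 1` moves some `x`; `x ∈ L` as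
above; `τ` has order `2^k`, `k ≥ 1`, on `L`; the field of the elements of `L` fixed by `τ²` is a quadratic extension of the field of those fixed by `τ`
(or: `Σ (-1)^j τ^j(y) ≠ 0` for some `y ∈ L` by independence of characters). Then `- 1 ∈ 1 + m`, `2 ∈ m`, contradiction. -/
def S_DECT : Prop := ∀ (F : Type) [Field F], (2 : F) ≠ 0 → ∀ (K : IntermediateField F (AlgebraicClosure F)),
  IsGalois F K → (∀ x : K, ∃ L : IntermediateField F K, x ∈ L ∧ FiniteDimensional F L ∧ IsGalois F L ∧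
      ∃ k : ℕ, Module.finrank F L = 2 ^ k) → (∀ c : K, ∃ y, y ^ 2 = c) →
  ∀ O : ValuationSubring K, (2 : K)⁻¹ ∈ O → Imm O (IntermediateField.fixedField (Z (F := F) O)) →
    (∀ x ∈ IntermediateField.fixedField (Z (F := F) O), O.valuation x < 1 →
      ∃ β ∈ IntermediateField.fixedField (Z (F := F) O), β ^ 2 = 1 + x) →
    (∃ τ ∈ Z (F := F) O, τ ≠ 1 ∧ ∀ x ∈ O, O.valuation (τ x - x) < 1) →
    ∀ T' : Subgroup Fˣ, (∀ x : Fˣ, x ∈ T' ↔ ∃ y ∈ IntermediateField.fixedField (Z (F := F) O), y ^ 2 = algebraMap F K x) →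
      Cp 2 T' (O.comap (algebraMap F K))

/-- CONV (200 lines): if `G` is a free product of groups `ℤ₂` and of groups over which all elements of `D` are squares, then the
quaternion algebras `(s, t)`, `s, t ∈ D`, split.

Proof. Let `a² = s`, `b² = t` in `K` and `P, φ₁, φ₂, c` from DFOUR; `ψ g = (g(a)/a, g(b)/b) ∈ ℤˣ × ℤˣ` is a continuous homomorphism. For every `k` there
is a lift `φ_k : H k → P` of `ψ` (LIFTZ, or `φ_k = 1` if `s` and `t` are squares in `Fx (H k)`). The free product property (for `P`) gives a continuous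
homomorphism `Ψ : G → P` with these restrictions, and `φ₁ × φ₂ ∘ Ψ = ψ` by the uniqueness in the free product property (for `ℤˣ × ℤˣ`). Use the last
part of DFOUR: `Nm (Fx ⊤) (b²) (a²)`. -/
def S_CONV : Prop := C_LOCN → S_DFOUR → S_LIFTZ → ∀ (F K : Type) [Field F] [Field K] [Algebra F K] [IsGalois F K],
  (2 : K) ≠ 0 → (∀ c : K, ∃ y, y ^ 2 = c) → ∀ (n : ℕ) (H : Fin n → Subgroup (K ≃ₐ[F] K)), Free H →
    ∀ s ∈ Fx (⊤ : Subgroup (K ≃ₐ[F] K)), ∀ t ∈ Fx (⊤ : Subgroup (K ≃ₐ[F] K)), s ≠ 0 → t ≠ 0 →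
      (∀ k, Nonempty (↥(H k) ≃ₜ* Multiplicative (PadicInt 2)) ∨
        ((∃ w ∈ Fx (H k), s = w ^ 2) ∧ ∃ w ∈ Fx (H k), t = w ^ 2)) →
      Nm (Fx (⊤ : Subgroup (K ≃ₐ[F] K))) t s

/-- NOINV (40 lines): no involutions if `-1` is a sum of two squares. `τ i = - i` for `i² = -1` (see INF in `Stm2.lean`, (1)); `-1 = u² + v²`, `u, v` fixed by `τ`;
`κ = u + v i`, `κ τ(κ) = -1`, `κ = λ²`, `(λ τ(λ))² = -1`, so `λ τ(λ) = ± i`, but it is fixed by `τ`. -/
def S_NOINV : Prop := ∀ (F K : Type) [Field F] [Field K] [Algebra F K], (2 : K) ≠ 0 → (∀ c : K, ∃ y, y ^ 2 = c) →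
  (∃ u v : F, (-1 : F) = u ^ 2 + v ^ 2) → ∀ τ : K ≃ₐ[F] K, τ * τ = 1 → τ = 1

end Pool.Agent.P8H47.FP
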